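import Pool.Agent.Lib.MP_0c15f2_nt.Zeta

open Filter Topology Set
open Pool.Agent.Lib.MP_9177b7_ag.CM.Rat

namespace Pool.Agent.Lib.MP_0c15f2_nt

variable {L : PeriodPair}

theorem fs_deriv {z v : ℂ} (hz : z ∉ L.lattice) (hv : v ∉ L.lattice) (hzv : z + v ∉ L.lattice) :
    2 * (wzeta L (z + v) - wzeta L z - wzeta L v) * (L.weierstrassP z - L.weierstrassP (z + v))
      = L.derivWeierstrassP z + L.derivWeierstrassP (z + v) := by
  have h1 := ((((hasDerivAt_wzeta hzv).comp_add_const z v).sub (hasDerivAt_wzeta hz)).sub_const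
    (wzeta L v)).pow 2
  have h2 := ((hasDerivAt_wp hz).add_const (L.weierstrassP v)).add
    ((hasDerivAt_wp hzv).comp_add_const z v)
  have he : ∀ᶠ w in 𝓝 z, w ∉ L.lattice ∧ w + v ∉ L.lattice := by
    filter_upwards [(isOpen_compl L).mem_nhds hz,
      ((isOpen_compl L).preimage (continuous_add_const v)).mem_nhds hzv] with w h1 h2
    exact ⟨h1, h2⟩
  have h3 := h1.unique (h2.congr_of_eventuallyEq (he.mono fun w hw => fs hw.1 hv hw.2))
  simp only [Pi.sub_apply, Nat.cast_ofNat, Nat.add_one_sub_one, pow_one] at h3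
  linear_combination h3

theorem tendsto_sq_wp (L : PeriodPair) :
    Tendsto (fun z : ℂ => z ^ 2 * L.weierstrassP z) (𝓝[≠] 0) (𝓝 1) := by
  have h1 : ContinuousAt (fun z : ℂ => 1 + z ^ 2 * L.weierstrassPExcept 0 z) 0 := by
    have := (L.analyticAt_weierstrassPExcept 0).continuousAt
    fun_prop
  have h2 := h1.tendsto.mono_left (nhdsWithin_le_nhds (s := {0}ᶜ))
  simp only [ne_eq, OfNat.ofNat_ne_zero, not_false_eq_true, zero_pow, zero_mul, add_zero] at h2
  refine h2.congr' ?_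
  filter_upwards [self_mem_nhdsWithin] with z hz
  have hz0 : z ≠ 0 := hz
  rw [wp_eq]; field_simp

theorem not_freq_eq {g : ℂ → ℂ} (hg : ContinuousAt g 0) :
    ¬ ∃ᶠ z in 𝓝[≠] (0 : ℂ), L.weierstrassP z = g z := by
  intro h
  have h1 : Tendsto (fun z : ℂ => z ^ 2 * g z) (𝓝[≠] 0) (𝓝 0) := by
    have : ContinuousAt (fun z : ℂ => z ^ 2 * g z) 0 := by fun_prop
    simpa using this.tendsto.mono_left (nhdsWithin_le_nhds (s := {0}ᶜ))
  have := tendsto_nhds_unique_of_frequently_eq (tendsto_sq_wp L) h1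
    (h.mono fun z hz => by simp [hz])
  exact one_ne_zero this

theorem ev_wp_ne {w : ℂ} (hw : w ∉ L.lattice) (c : ℂ) :
    ∀ᶠ z in 𝓝[≠] w, L.weierstrassP z ≠ c := by
  rcases (analyticAt_wp hw).eventually_eq_or_eventually_ne (g := fun _ => c) analyticAt_const
    with h | h
  · exfalso
    have := L.analyticOnNhd_weierstrassP.eqOn_of_preconnected_of_eventuallyEq
      (g := fun _ => c) analyticOnNhd_const (preconn (countable_lattice L)) hw h
    exact not_freq_eq (L := L) (g := fun _ => c) continuousAt_const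
      ((ev_notMem L 0).mono fun z hz => this hz).frequently
  · exact h

theorem hasDerivAt_wp' {z : ℂ} (hz : z ∉ L.lattice) :
    HasDerivAt L.derivWeierstrassP (6 * L.weierstrassP z ^ 2 - L.g₂ / 2) z := by
  have hmul : ∀ w ∈ (L.lattice : Set ℂ)ᶜ, L.derivWeierstrassP w *
      (deriv L.derivWeierstrassP w - (6 * L.weierstrassP w ^ 2 - L.g₂ / 2)) = 0 := by
    intro w hw
    have h1 := (analyticAt_wp' hw).differentiableAt.hasDerivAt.pow 2
    have h2 := ((((hasDerivAt_wp hw).pow 3).const_mul 4).sub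
      ((hasDerivAt_wp hw).const_mul L.g₂)).sub_const L.g₃
    have h3 := h1.unique (h2.congr_of_eventuallyEq (by
      filter_upwards [(isOpen_compl L).mem_nhds hw] with x hx
      exact L.derivWeierstrassP_sq x hx))
    simp only [Nat.cast_ofNat, Nat.add_one_sub_one, pow_one] at h3
    linear_combination (1 / 2 : ℂ) * h3
  have ha : AnalyticOnNhd ℂ (fun w => deriv L.derivWeierstrassP w -
      (6 * L.weierstrassP w ^ 2 - L.g₂ / 2)) (L.lattice : Set ℂ)ᶜ := by
    intro w hw
    have h1 := (analyticAt_wp' hw).deriv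
    have h2 := analyticAt_wp hw
    fun_prop
  rcases L.analyticOnNhd_derivWeierstrassP.eq_zero_or_eq_zero_of_mul_eq_zero ha hmul
    (preconn (countable_lattice L)) with h | h
  · exfalso
    have hc := fun w (hw : w ∈ (L.lattice : Set ℂ)ᶜ) =>
      (isOpen_compl L).is_const_of_deriv_eq_zero (preconn (countable_lattice L))
        L.differentiableOn_weierstrassP (fun x hx => by simpa using h x hx) hw hz
    exact not_freq_eq (L := L) (g := fun _ => L.weierstrassP z) continuousAt_const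
      ((ev_notMem L 0).mono fun w hw => hc w hw).frequently
  · rw [← sub_eq_zero.1 (h z hz)]
    exact (analyticAt_wp' hz).differentiableAt.hasDerivAt

theorem fs_one {z v : ℂ} (hz : z ∉ L.lattice) (hv : v ∉ L.lattice) (hzv : z + v ∉ L.lattice) :
    2 * (wzeta L (z + v) - wzeta L z - wzeta L v) * (L.weierstrassP z - L.weierstrassP v)
      = L.derivWeierstrassP z - L.derivWeierstrassP v := by
  have h1 := fs_deriv hz hv hzv
  have h2 := fs_deriv hv hz (by rwa [add_comm])
  rw [add_comm v z] at h2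
  linear_combination h1 - h2

theorem tendsto_shift (t v : ℂ) : Tendsto (fun z : ℂ => z + v) (𝓝[≠] t) (𝓝[≠] (t + v)) := by
  refine tendsto_nhdsWithin_of_tendsto_nhds_of_eventually_within _
    ((continuous_add_const v).continuousAt.tendsto.mono_left nhdsWithin_le_nhds) ?_
  filter_upwards [self_mem_nhdsWithin] with z hz
  simpa using hz

theorem wp_inj_aux {u v : ℂ} (hu : u ∉ L.lattice) (hv : v ∉ L.lattice)
    (h : L.weierstrassP u = L.weierstrassP v)
    (h' : L.derivWeierstrassP u = L.derivWeierstrassP v) : u - v ∈ L.lattice := by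
  by_contra huv
  have hvu : v - u ∉ L.lattice := by simpa using neg_notMem huv
  refine not_freq_eq (L := L) (g := fun w => L.weierstrassP (w + (v - u))) ?_ ?_
  · have : ContinuousAt L.weierstrassP (0 + (v - u)) := by
      simpa using (analyticAt_wp hvu).continuousAt
    exact this.comp (f := fun w : ℂ => w + (v - u)) (by fun_prop)
  refine Eventually.frequently ?_
  have h1 := (tendsto_shift 0 (-u)).eventually
    (ev_wp_ne (L := L) (w := 0 + -u) (by simpa using hu) (L.weierstrassP u))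
  filter_upwards [ev_notMem L 0, ev_add_notMem L 0 (-u), ev_add_notMem L 0 (v - u), h1]
    with w a1 a2 a3 a4
  have e1 : w + -u + u = w := by ring
  have e2 : w + -u + v = w + (v - u) := by ring
  have b1 := fs a2 hu (by rwa [e1])
  have b2 := fs a2 hv (by rwa [e2])
  have c1 := fs_one a2 hu (by rwa [e1])
  have c2 := fs_one a2 hv (by rwa [e2])
  rw [e1] at b1 c1
  rw [e2, ← h] at b2 c2
  rw [← h'] at c2
  have d : wzeta L w - wzeta L (w + -u) - wzeta L u
      = wzeta L (w + (v - u)) - wzeta L (w + -u) - wzeta L v := by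
    refine mul_right_cancel₀ (sub_ne_zero.2 a4) ?_
    linear_combination (1 / 2 : ℂ) * (c1 - c2)
  rw [d] at b1
  linear_combination b2 - b1

theorem wp_inj {u v : ℂ} (hu : u ∉ L.lattice) (hv : v ∉ L.lattice)
    (h : L.weierstrassP u = L.weierstrassP v) : u - v ∈ L.lattice ∨ u + v ∈ L.lattice := by
  have h1 : L.derivWeierstrassP u ^ 2 = L.derivWeierstrassP v ^ 2 := by
    rw [L.derivWeierstrassP_sq u hu, L.derivWeierstrassP_sq v hv, h]
  rcases sq_eq_sq_iff_eq_or_eq_neg.1 h1 with h2 | h2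
  · exact Or.inl (wp_inj_aux hu hv h h2)
  · right
    have := wp_inj_aux hu (neg_notMem hv) (by rw [L.weierstrassP_neg, h])
      (by rw [L.derivWeierstrassP_neg, h2])
    simpa using this

theorem wp'_half {u : ℂ} (h : 2 * u ∈ L.lattice) : L.derivWeierstrassP u = 0 := by
  have h1 := wp'_add (L := L) (z := -u) h
  rw [L.derivWeierstrassP_neg, show -u + 2 * u = u by ring] at h1
  linear_combination (1 / 2 : ℂ) * h1

theorem rat_notMem (L : PeriodPair) (α β : ℚ) (h : ¬ (α.den = 1 ∧ β.den = 1)) :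
    (α : ℂ) * L.ω₁ + (β : ℂ) * L.ω₂ ∉ L.lattice := by
  rwa [PeriodPair.mul_ω₁_add_mul_ω₂_mem_lattice]

theorem rat_mem (L : PeriodPair) (α β : ℚ) (h : α.den = 1 ∧ β.den = 1) :
    (α : ℂ) * L.ω₁ + (β : ℂ) * L.ω₂ ∈ L.lattice := by
  rwa [PeriodPair.mul_ω₁_add_mul_ω₂_mem_lattice]

theorem wp_rat_ne (L : PeriodPair) (α β γ δ : ℚ) (h1 : ¬ (α.den = 1 ∧ β.den = 1))
    (h2 : ¬ (γ.den = 1 ∧ δ.den = 1)) (h3 : ¬ ((α - γ).den = 1 ∧ (β - δ).den = 1))
    (h4 : ¬ ((α + γ).den = 1 ∧ (β + δ).den = 1)) :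
    L.weierstrassP ((α : ℂ) * L.ω₁ + (β : ℂ) * L.ω₂)
      ≠ L.weierstrassP ((γ : ℂ) * L.ω₁ + (δ : ℂ) * L.ω₂) := by
  intro h
  rcases wp_inj (rat_notMem L _ _ h1) (rat_notMem L _ _ h2) h with h | h
  · refine rat_notMem L _ _ h3 ?_
    convert h using 1; push_cast; ring
  · refine rat_notMem L _ _ h4 ?_
    convert h using 1; push_cast; ring

theorem half_root (L : PeriodPair) (α β : ℚ) (h1 : ¬ (α.den = 1 ∧ β.den = 1))
    (h2 : (2 * α).den = 1 ∧ (2 * β).den = 1) :
    4 * L.weierstrassP ((α : ℂ) * L.ω₁ + (β : ℂ) * L.ω₂) ^ 3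
      - L.g₂ * L.weierstrassP ((α : ℂ) * L.ω₁ + (β : ℂ) * L.ω₂) - L.g₃ = 0 := by
  rw [← L.derivWeierstrassP_sq _ (rat_notMem L _ _ h1), wp'_half]
  · simp
  · convert rat_mem L _ _ h2 using 1; push_cast; ring

theorem exists_roots (L : PeriodPair) : ∃ e₁ e₂ e₃ : ℂ, e₁ ≠ e₂ ∧
    ∀ x : ℂ, 4 * x ^ 3 - L.g₂ * x - L.g₃ = 4 * ((x - e₁) * (x - e₂) * (x - e₃)) := by
  have r1 := half_root L (1 / 2) 0 (by norm_num) (by norm_num)
  have r2 := half_root L 0 (1 / 2) (by norm_num) (by norm_num)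
  have n12 := wp_rat_ne L (1 / 2) 0 0 (1 / 2) (by norm_num) (by norm_num) (by norm_num)
    (by norm_num)
  set a := L.weierstrassP (((1 / 2 : ℚ) : ℂ) * L.ω₁ + ((0 : ℚ) : ℂ) * L.ω₂)
  set b := L.weierstrassP (((0 : ℚ) : ℂ) * L.ω₁ + ((1 / 2 : ℚ) : ℂ) * L.ω₂)
  have hg2 : L.g₂ = 4 * (a ^ 2 + a * b + b ^ 2) := by
    refine mul_left_cancel₀ (sub_ne_zero.2 n12) ?_
    linear_combination r2 - r1
  refine ⟨a, b, -a - b, n12, fun x => ?_⟩
  have hg3 : L.g₃ = 4 * a ^ 3 - L.g₂ * a := by linear_combination -r1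
  rw [hg3, hg2]; ring

theorem eta_ne (L : PeriodPair) : ∃ l ∈ L.lattice, eta L l ≠ 0 := by
  by_contra hcon
  push Not at hcon
  obtain ⟨h, hh, hh0, hhe⟩ := wzE_factor L
  have hpE := L.analyticAt_weierstrassPExcept 0
  set u : ℂ → ℂ := fun z => 2 * h z + (z * h z) ^ 2 - L.weierstrassPExcept 0 z with hu
  have hua : AnalyticAt ℂ u 0 := by simp only [hu]; fun_prop
  have hGu : ∀ᶠ z in 𝓝[≠] 0, wzeta L z ^ 2 - L.weierstrassP z = u z := by
    filter_upwards [self_mem_nhdsWithin] with z hz0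
    have hz0' : z ≠ 0 := hz0
    simp only [hu]
    rw [wzeta_eq L z, hhe z, wp_eq L z]
    field_simp
    ring
  have key := zero_of_removable (L := L) (S := L.lattice)
    (G := fun z => wzeta L z ^ 2 - L.weierstrassP z) (ev_notMem L) L.isClosed_lattice
    (fun l hl z => L.lattice.add_mem_iff_left hl)
    (fun l hl z hz => by rw [wzeta_add hz hl, hcon l hl, wp_add hl, add_zero])
    (fun z hz => by
      have h3 := analyticAt_wzeta hz
      have h4 := analyticAt_wp hz
      fun_prop)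
    (fun t ht => ⟨-t, L.lattice.neg_mem ht, by
      rw [add_neg_cancel]; exact ⟨u, hua, hGu.mono fun z h => by simpa using h⟩⟩)
    ⟨u, hua.continuousAt, by simp [hu, hh0], hGu⟩
  have h2 : ∀ z, z ∉ L.lattice → L.g₂ * L.weierstrassP z + L.g₃ = 0 := by
    intro z hz
    have h1 := ((hasDerivAt_wzeta hz).pow 2).unique ((hasDerivAt_wp hz).congr_of_eventuallyEq (by
      filter_upwards [(isOpen_compl L).mem_nhds hz] with x hx
      exact sub_eq_zero.1 (key x hx)))
    simp only [Nat.cast_ofNat, Nat.add_one_sub_one, pow_one] at h1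
    have h3 := L.derivWeierstrassP_sq z hz
    have h4 := key z hz
    rw [← h1] at h3
    linear_combination h3 - 4 * L.weierstrassP z ^ 2 * h4
  have r1 := half_root L (1 / 2) 0 (by norm_num) (by norm_num)
  have r2 := half_root L 0 (1 / 2) (by norm_num) (by norm_num)
  have n12 := wp_rat_ne L (1 / 2) 0 0 (1 / 2) (by norm_num) (by norm_num) (by norm_num)
    (by norm_num)
  have s1 := h2 _ (rat_notMem L (1 / 2) 0 (by norm_num))
  have s2 := h2 _ (rat_notMem L 0 (1 / 2) (by norm_num))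
  set a := L.weierstrassP (((1 / 2 : ℚ) : ℂ) * L.ω₁ + ((0 : ℚ) : ℂ) * L.ω₂)
  set b := L.weierstrassP (((0 : ℚ) : ℂ) * L.ω₁ + ((1 / 2 : ℚ) : ℂ) * L.ω₂)
  have ha : a = 0 := pow_eq_zero_iff (n := 3) (by norm_num) |>.1 (by
    linear_combination (1 / 4 : ℂ) * (r1 + s1))
  have hb : b = 0 := pow_eq_zero_iff (n := 3) (by norm_num) |>.1 (by
    linear_combination (1 / 4 : ℂ) * (r2 + s2))
  exact n12 (ha.trans hb.symm)

end Pool.Agent.Lib.MP_0c15f2_nt
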