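import Mathlib

open Filter Topology NumberField Finset

namespace Pool.Agent.Lib.MP_0c15f2_nt

section Comb

variable {ι : Type*} {φ : ι → ℂ → ℂ}

/-- products of exactly `n` generators -/
inductive Mon (φ : ι → ℂ → ℂ) : ℕ → (ℂ → ℂ) → Prop
  | one : Mon φ 0 1
  | mul {n : ℕ} {f : ℂ → ℂ} (i : ι) : Mon φ n f → Mon φ (n + 1) (f * φ i)

/-- signed sums of at most `B` such products -/
inductive Comb (φ : ι → ℂ → ℂ) (n : ℕ) : ℕ → (ℂ → ℂ) → Prop
  | zero (B : ℕ) : Comb φ n B 0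
  | add {B : ℕ} {f g : ℂ → ℂ} : Comb φ n B f → Mon φ n g → Comb φ n (B + 1) (f + g)
  | sub {B : ℕ} {f g : ℂ → ℂ} : Comb φ n B f → Mon φ n g → Comb φ n (B + 1) (f - g)

theorem Mon.mul' {n k : ℕ} {f g : ℂ → ℂ} (hf : Mon φ n f) (hg : Mon φ k g) :
    Mon φ (n + k) (f * g) := by
  induction hg with
  | one => simpa using hf
  | mul i _ ih => rw [← mul_assoc, ← add_assoc]; exact ih.mul i

theorem Mon.gen (i : ι) : Mon φ 1 (φ i) := by simpa using (Mon.one (φ := φ)).mul i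

theorem Mon.pow (i : ι) (k : ℕ) : Mon φ k (φ i ^ k) := by
  induction k with
  | zero => simpa using Mon.one
  | succ k ih => rw [pow_succ]; exact ih.mul i

theorem Mon.comb {n : ℕ} {f : ℂ → ℂ} (hf : Mon φ n f) : Comb φ n 1 f := by
  simpa using (Comb.zero 0).add hf

theorem Comb.mono {n B B' : ℕ} {f : ℂ → ℂ} (hf : Comb φ n B f) (h : B ≤ B') : Comb φ n B' f := by
  induction hf generalizing B' with
  | zero => exact Comb.zero _
  | add _ hg ih =>
    obtain ⟨c, rfl⟩ : ∃ c, B' = c + 1 := ⟨B' - 1, by omega⟩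
    exact (ih (by omega)).add hg
  | sub _ hg ih =>
    obtain ⟨c, rfl⟩ : ∃ c, B' = c + 1 := ⟨B' - 1, by omega⟩
    exact (ih (by omega)).sub hg

theorem Comb.add' {n B B' : ℕ} {f g : ℂ → ℂ} (hf : Comb φ n B f) (hg : Comb φ n B' g) :
    Comb φ n (B + B') (f + g) := by
  induction hg with
  | zero => simpa using hf.mono (Nat.le_add_right _ _)
  | add _ h ih => rw [← add_assoc, ← add_assoc]; exact ih.add h
  | sub _ h ih => rw [← add_sub_assoc, ← add_assoc]; exact ih.sub h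

theorem Comb.neg {n B : ℕ} {f : ℂ → ℂ} (hf : Comb φ n B f) : Comb φ n B (-f) := by
  induction hf with
  | zero => simpa using Comb.zero _
  | add _ h ih => rw [neg_add, ← sub_eq_add_neg]; exact ih.sub h
  | sub _ h ih => rw [neg_sub', sub_neg_eq_add]; exact ih.add h

theorem Comb.mul_mon {n k B : ℕ} {f g : ℂ → ℂ} (hf : Comb φ n B f) (hg : Mon φ k g) :
    Comb φ (n + k) B (f * g) := by
  induction hf with
  | zero => simpa using Comb.zero _
  | add _ h ih => rw [add_mul]; exact ih.add (h.mul' hg)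
  | sub _ h ih => rw [sub_mul]; exact ih.sub (h.mul' hg)

variable {Ω : Set ℂ}

theorem Mon.der (hφ : ∀ i, ∃ g, Comb φ 2 7 g ∧ ∀ z ∈ Ω, HasDerivAt (φ i) (g z) z) {n : ℕ}
    {f : ℂ → ℂ} (hf : Mon φ n f) :
    ∃ g, Comb φ (n + 1) (7 * n) g ∧ ∀ z ∈ Ω, HasDerivAt f (g z) z := by
  induction hf with
  | one => exact ⟨0, Comb.zero _, fun z _ => hasDerivAt_const z _⟩
  | @mul n f i h ih =>
    obtain ⟨g, hg, hd⟩ := ih
    obtain ⟨g', hg', hd'⟩ := hφ i
    refine ⟨g * φ i + g' * f, ?_, fun z hz => ?_⟩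
    · have h2 := hg'.mul_mon h
      rw [show 2 + n = n + 1 + 1 by ring] at h2
      exact (hg.mul_mon (Mon.gen i)).add' h2
    · have := (hd z hz).mul (hd' z hz)
      rwa [mul_comm (f z)] at this

theorem Comb.der (hφ : ∀ i, ∃ g, Comb φ 2 7 g ∧ ∀ z ∈ Ω, HasDerivAt (φ i) (g z) z) {n B : ℕ}
    {f : ℂ → ℂ} (hf : Comb φ n B f) :
    ∃ g, Comb φ (n + 1) (7 * n * B) g ∧ ∀ z ∈ Ω, HasDerivAt f (g z) z := by
  induction hf with
  | zero => exact ⟨0, Comb.zero _, fun z _ => hasDerivAt_const z _⟩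
  | add _ h ih =>
    obtain ⟨g, hg, hd⟩ := ih
    obtain ⟨g', hg', hd'⟩ := h.der hφ
    exact ⟨g + g', hg.add' hg', fun z hz => (hd z hz).add (hd' z hz)⟩
  | sub _ h ih =>
    obtain ⟨g, hg, hd⟩ := ih
    obtain ⟨g', hg', hd'⟩ := h.der hφ
    refine ⟨g + -g', hg.add' hg'.neg, fun z hz => ?_⟩
    have := (hd z hz).sub (hd' z hz)
    rwa [sub_eq_add_neg (g z)] at this

theorem Mon.iter (hΩ : IsOpen Ω)
    (hφ : ∀ i, ∃ g, Comb φ 2 7 g ∧ ∀ z ∈ Ω, HasDerivAt (φ i) (g z) z) {n : ℕ}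
    {f : ℂ → ℂ} (hf : Mon φ n f) (t : ℕ) :
    ∃ g, Comb φ (n + t) ((7 * (n + t)) ^ t) g ∧ ∀ z ∈ Ω, iteratedDeriv t f z = g z := by
  induction t with
  | zero => exact ⟨f, hf.comb, fun z _ => by simp⟩
  | succ t ih =>
    obtain ⟨g, hg, he⟩ := ih
    obtain ⟨g', hg', hd⟩ := hg.der hφ
    refine ⟨g', hg'.mono ?_, fun z hz => ?_⟩
    · rw [pow_succ']
      gcongr <;> omega
    · rw [iteratedDeriv_succ, ← (hd z hz).deriv]
      exact EventuallyEq.deriv_eq (eventually_of_mem (hΩ.mem_nhds hz) he)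

variable {K : Type*} [Field K] [NumberField K] {σ : K →+* ℂ} {d w : ℂ} {C : ℝ}

theorem house_neg' (x : K) : house (-x) = house x := by simp [house]

theorem Mon.val (hv : ∀ i, ∃ γ : 𝓞 K, σ γ = d * φ i w ∧ house (γ : K) ≤ C) {n : ℕ} {f : ℂ → ℂ}
    (hf : Mon φ n f) : ∃ γ : 𝓞 K, σ γ = d ^ n * f w ∧ house (γ : K) ≤ C ^ n := by
  induction hf with
  | one => exact ⟨1, by simp, by simpa using (house_intCast (K := K) 1).le⟩
  | mul i _ ih =>
    obtain ⟨γ, h1, h2⟩ := ih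
    obtain ⟨γ', h3, h4⟩ := hv i
    refine ⟨γ * γ', ?_, ?_⟩
    · push_cast
      rw [map_mul, h1, h3, Pi.mul_apply]; ring
    · push_cast
      rw [pow_succ]
      exact (house_mul_le _ _).trans
        (mul_le_mul h2 h4 (house_nonneg _) ((house_nonneg _).trans h2))

theorem Comb.val (hC : 0 ≤ C) (hv : ∀ i, ∃ γ : 𝓞 K, σ γ = d * φ i w ∧ house (γ : K) ≤ C) {n B : ℕ}
    {f : ℂ → ℂ} (hf : Comb φ n B f) :
    ∃ γ : 𝓞 K, σ γ = d ^ n * f w ∧ house (γ : K) ≤ B * C ^ n := by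
  induction hf with
  | zero => exact ⟨0, by simp, by simp [house]; positivity⟩
  | add _ h ih =>
    obtain ⟨γ, h1, h2⟩ := ih
    obtain ⟨γ', h3, h4⟩ := h.val hv
    refine ⟨γ + γ', ?_, ?_⟩
    · push_cast
      rw [map_add, h1, h3, Pi.add_apply]; ring
    · push_cast
      exact (house_add_le _ _).trans (by linarith)
  | sub _ h ih =>
    obtain ⟨γ, h1, h2⟩ := ih
    obtain ⟨γ', h3, h4⟩ := h.val hv
    refine ⟨γ + -γ', ?_, ?_⟩
    · push_cast
      rw [map_add, map_neg, h1, h3, Pi.sub_apply]; ring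
    · push_cast
      exact (house_add_le _ _).trans (by rw [house_neg']; linarith)

end Comb

theorem siegel (K : Type*) [Field K] [NumberField K] : ∃ c : ℝ, 1 ≤ c ∧
    ∀ (α β : Type) [Fintype α] [Fintype β] (a : Matrix α β (𝓞 K)) (p : ℕ) (A : ℝ), 0 < p →
      Fintype.card α = p → Fintype.card β = 2 * p → 1 ≤ A → (∀ k l, house (a k l : K) ≤ A) →
      ∃ ξ : β → 𝓞 K, ξ ≠ 0 ∧ a.mulVec ξ = 0 ∧ ∀ l, house (ξ l : K) ≤ c * (2 * p * A) := by
  classical
  obtain ⟨c, hc⟩ : ∃ c : ℝ, ∀ (α β : Type) [Fintype α] [Fintype β] (a : Matrix α β (𝓞 K))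
      (p q : ℕ) (A : ℝ), a ≠ 0 → 0 < p → p < q → Fintype.card β = q →
      (∀ k l, house (algebraMap (𝓞 K) K (a k l)) ≤ A) → Fintype.card α = p →
      ∃ ξ : β → 𝓞 K, ξ ≠ 0 ∧ a.mulVec ξ = 0 ∧
        ∀ l, house (ξ l).1 ≤ c * ((c * q * A) ^ ((p : ℝ) / (q - p))) :=
    ⟨_, fun α β _ _ a p q A ha h0 hpq hβ habs hα =>
      house.exists_ne_zero_int_vec_house_le K a ha h0 hpq hβ habs hα⟩
  refine ⟨max 1 (c * c), le_max_left _ _, fun α β _ _ a p A hp hα hβ hA habs => ?_⟩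
  have hp' : (1 : ℝ) ≤ p := by exact_mod_cast hp
  by_cases ha : a = 0
  · have : Nonempty β := Fintype.card_pos_iff.1 (by omega)
    refine ⟨1, one_ne_zero, by simp [ha], fun l => ?_⟩
    have h1 : house ((1 : β → 𝓞 K) l : K) = 1 := by simpa using house_intCast (K := K) 1
    rw [h1]
    exact one_le_mul_of_one_le_of_one_le (le_max_left _ _) (by nlinarith)
  · obtain ⟨ξ, h1, h2, h3⟩ := hc α β a p (2 * p) A ha hp (by omega) hβ habs hα
    refine ⟨ξ, h1, h2, fun l => (h3 l).trans ?_⟩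
    have e : (p : ℝ) / ((2 * p : ℕ) - p) = 1 := by
      push_cast
      rw [show 2 * (p : ℝ) - p = p by ring, div_self (by linarith)]
    rw [e, Real.rpow_one]
    push_cast
    calc c * (c * (2 * p) * A) = c * c * (2 * p * A) := by ring
      _ ≤ _ := by gcongr; exact le_max_right _ _

theorem liouville {K : Type*} [Field K] [NumberField K] (σ : K →+* ℂ) {γ : 𝓞 K} (h : γ ≠ 0)
    {H : ℝ} (hH : 1 ≤ H) (hγ : house (γ : K) ≤ H) : 1 ≤ ‖σ γ‖ * H ^ Module.finrank ℚ K := by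
  have h1 := norm_norm_le_norm_mul_house_pow (γ : K) σ
  have h2 : (1 : ℝ) ≤ ‖Algebra.norm ℚ (γ : K)‖ := by
    rw [← Algebra.coe_norm_int]
    have : Algebra.norm ℤ γ ≠ 0 := Algebra.norm_ne_zero_iff.2 h
    rw [Int.norm_cast_rat, Int.norm_eq_abs]
    exact_mod_cast Int.one_le_abs this
  refine h2.trans (h1.trans (mul_le_mul_of_nonneg_left ?_ (norm_nonneg _)))
  exact (pow_le_pow_left₀ (house_nonneg _) hγ _).trans (pow_le_pow_right₀ hH (Nat.sub_le _ _))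

end Pool.Agent.Lib.MP_0c15f2_nt
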