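import Mathlib

open TensorProduct Module

namespace Pool.Agent.Lib.MP_0c15f2_nt

section Tensor

variable {k : Type*} [Field k] {B : Type*} [CommRing B] [Algebra k B]

/-- base change along an algebra map -/
noncomputable def bc (B : Type*) [CommRing B] [Algebra k B] {A A' : Type*} [CommRing A]
    [CommRing A'] [Algebra k A] [Algebra k A'] (f : A →ₐ[k] A') : A ⊗[k] B →ₐ[k] A' ⊗[k] B :=
  Algebra.TensorProduct.map f (AlgHom.id k B)

/-- coordinates of a tensor -/
noncomputable def co {ι : Type*} (b : Basis ι k B) {A : Type*} [CommRing A] [Algebra k A]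
    (x : A ⊗[k] B) : ι →₀ A := (Algebra.TensorProduct.basis A b).repr x

variable {ι : Type*} (b : Basis ι k B) {A A' : Type*} [CommRing A] [CommRing A'] [Algebra k A]
  [Algebra k A']

theorem co_add (x y : A ⊗[k] B) : co b (x + y) = co b x + co b y := map_add _ x y

theorem co_smul (c : A) (x : A ⊗[k] B) (i : ι) : co b (c • x) i = c * co b x i := by
  simp [co]

theorem co_tmul (a : A) (y : B) (i : ι) : co b (a ⊗ₜ[k] y) i = b.repr y i • a := by
  simp [co, Algebra.smul_def, mul_comm]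

theorem co_inj {x y : A ⊗[k] B} (h : ∀ i, co b x i = co b y i) : x = y :=
  (Algebra.TensorProduct.basis A b).repr.injective (Finsupp.ext h)

theorem co_zero (i : ι) : co b (0 : A ⊗[k] B) i = 0 := by simp [co]

theorem co_bc (f : A →ₐ[k] A') (x : A ⊗[k] B) (i : ι) : co b (bc B f x) i = f (co b x i) := by
  induction x using TensorProduct.induction_on with
  | zero => simp [co_zero]
  | tmul a y => simp [bc, co_tmul]
  | add x y hx hy => simp [co_add, hx, hy]

theorem bc_smul (f : A →ₐ[k] A') (c : A) (x : A ⊗[k] B) : bc B f (c • x) = f c • bc B f x := by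
  let b := Basis.ofVectorSpace k B
  exact co_inj b fun i => by rw [co_bc, co_smul, co_smul, co_bc, map_mul]

theorem bc_injective {f : A →ₐ[k] A'} (hf : Function.Injective f) :
    Function.Injective (bc B f) := by
  let b := Basis.ofVectorSpace k B
  intro x y h
  exact co_inj b fun i => hf (by rw [← co_bc, ← co_bc, h])

theorem exists_lift (f : A →ₐ[k] A') (x : A' ⊗[k] B) (h : ∀ i, ∃ a, f a = co b x i) :
    ∃ z, bc B f z = x := by
  choose a ha using h
  refine ⟨∑ i ∈ (co b x).support, a i ⊗ₜ[k] b i, ?_⟩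
  rw [map_sum]
  conv_rhs => rw [← (Algebra.TensorProduct.basis A' b).linearCombination_repr x]
  rw [Finsupp.linearCombination_apply, Finsupp.sum]
  refine Finset.sum_congr rfl fun i _ => ?_
  rw [Algebra.TensorProduct.basis_repr_symm_apply']
  simp [bc, ha, co]

theorem bc_baseChange (f : A →ₐ[k] A') (δ : B →ₗ[k] B) (x : A ⊗[k] B) :
    bc B f (δ.baseChange A x) = δ.baseChange A' (bc B f x) := by
  induction x using TensorProduct.induction_on with
  | zero => simp
  | tmul a y => simp [bc]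
  | add x y hx hy => simp [hx, hy]

theorem exists_ev [IsAlgClosed k] {R : Type*} [CommRing R] [IsDomain R] [Algebra k R]
    [Algebra.FiniteType k R] {t : R} (ht : t ≠ 0) : ∃ ev : R →ₐ[k] k, ev t ≠ 0 := by
  have : IsJacobsonRing R := isJacobsonRing_of_finiteType (A := k)
  have h1 : t ∉ (⊥ : Ideal R).jacobson := by
    rw [IsJacobsonRing.out ‹_› (Ideal.isRadical_bot (R := R))]
    simpa using ht
  obtain ⟨M, hM, htM⟩ : ∃ M : Ideal R, M.IsMaximal ∧ t ∉ M := by
    by_contra hc
    push Not at hc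
    exact h1 (Ideal.mem_sInf.2 fun {M} hM => hc M hM.2)
  let := Ideal.Quotient.field M
  have : Module.Finite k (R ⧸ M) := finite_of_finite_type_of_isJacobsonRing k (R ⧸ M)
  let φ : (R ⧸ M) →ₐ[k] k := IsAlgClosed.lift
  refine ⟨φ.comp (Ideal.Quotient.mkₐ k M), fun h => htM ?_⟩
  exact Ideal.Quotient.eq_zero_iff_mem.1 (φ.toRingHom.injective (h.trans (map_zero φ).symm))

theorem tensor_mul_ne_zero [IsAlgClosed k] [IsDomain A] [IsDomain B] {x y : A ⊗[k] B}
    (hx : x ≠ 0) (hy : y ≠ 0) : x * y ≠ 0 := by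
  classical
  let b := Basis.ofVectorSpace k B
  intro hxy
  obtain ⟨i, hi⟩ : ∃ i, co b x i ≠ 0 := by
    by_contra h
    push Not at h
    exact hx (co_inj b fun i => by rw [h, co_zero])
  obtain ⟨j, hj⟩ : ∃ i, co b y i ≠ 0 := by
    by_contra h
    push Not at h
    exact hy (co_inj b fun i => by rw [h, co_zero])
  let s : Finset A := (co b x).frange ∪ (co b y).frange
  let R := Algebra.adjoin k (s : Set A)
  have : Algebra.FiniteType k R := Algebra.FiniteType.adjoin_of_finite s.finite_toSet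
  have hmem : ∀ (f : Basis.ofVectorSpaceIndex k B →₀ A), f.frange ⊆ s → ∀ l, ∃ a, R.val a = f l := by
    intro f hf l
    by_cases h : f l = 0
    · exact ⟨0, by simp [h]⟩
    · exact ⟨⟨f l, Algebra.subset_adjoin (hf (Finsupp.mem_frange.2 ⟨h, l, rfl⟩))⟩, rfl⟩
  obtain ⟨x', hx'⟩ := exists_lift b R.val x (hmem _ Finset.subset_union_left)
  obtain ⟨y', hy'⟩ := exists_lift b R.val y (hmem _ Finset.subset_union_right)
  rw [← hx', co_bc] at hi
  rw [← hy', co_bc] at hj
  have h0 : x' * y' = 0 := bc_injective (B := B) (f := R.val) Subtype.val_injective (by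
    rw [map_mul, hx', hy', hxy, map_zero])
  have hi' : co b x' i ≠ 0 := fun h => hi (by rw [h, map_zero])
  have hj' : co b y' j ≠ 0 := fun h => hj (by rw [h, map_zero])
  obtain ⟨ev, hev⟩ := exists_ev (k := k) (mul_ne_zero hi' hj')
  rw [map_mul] at hev
  have h1 : Algebra.TensorProduct.lid k B (bc B ev x') * Algebra.TensorProduct.lid k B (bc B ev y')
      = 0 := by rw [← map_mul, ← map_mul, h0, map_zero, map_zero]
  rcases mul_eq_zero.1 h1 with h | h
  · rw [map_eq_zero_iff _ (AlgEquiv.injective _)] at h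
    exact left_ne_zero_of_mul hev (by rw [← co_bc, h, co_zero])
  · rw [map_eq_zero_iff _ (AlgEquiv.injective _)] at h
    exact right_ne_zero_of_mul hev (by rw [← co_bc, h, co_zero])

end Tensor

section Gauss

variable {k : Type*} [Field k] {K L : Type*} [Field K] [Field L] [Algebra k K] [Algebra k L]
  {Γ : Type*} [LinearOrderedCommGroupWithZero Γ] (v : Valuation L Γ)
  (hv : ∀ c : k, v (algebraMap k L c) ≤ 1)

/-- valuation ring as a subalgebra -/
def valO : Subalgebra k L where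
  carrier := {x | v x ≤ 1}
  mul_mem' := fun {a b} ha hb => by
    simp only [Set.mem_ofPred_eq, map_mul] at *
    exact mul_le_one' ha hb
  add_mem' := fun {a b} ha hb => v.map_add_le ha hb
  algebraMap_mem' := hv

/-- its maximal ideal -/
def valM : Ideal (valO v hv) where
  carrier := {x | v x < 1}
  add_mem' := fun {a b} ha hb => v.map_add_lt ha hb
  zero_mem' := by simp
  smul_mem' := fun c x hx => by
    change v ((c : L) * x) < 1
    rw [map_mul]
    exact lt_of_le_of_lt (mul_le_of_le_one_left' c.2) hx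

theorem valM_prime : (valM v hv).IsPrime := by
  refine ⟨fun h => ?_, fun {x y} h => ?_⟩
  · have : (1 : valO v hv) ∈ valM v hv := h ▸ Submodule.mem_top
    simp [valM] at this
  · by_contra hc
    push Not at hc
    have h1 : v x = 1 := le_antisymm x.2 (not_lt.1 hc.1)
    have h2 : v y = 1 := le_antisymm y.2 (not_lt.1 hc.2)
    have h3 : v ((x : L) * y) < 1 := h
    rw [map_mul, h1, h2, mul_one] at h3
    exact lt_irrefl _ h3

/-- bounded by `a` -/
def Bd (x : L ⊗[k] K) (a : L) : Prop := ∃ z, x = a • bc K (valO v hv).val z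

/-- of size exactly `a` -/
def Prim (x : L ⊗[k] K) (a : L) : Prop :=
  a ≠ 0 ∧ ∃ z, bc K (Ideal.Quotient.mkₐ k (valM v hv)) z ≠ 0 ∧ x = a • bc K (valO v hv).val z

variable {v hv}

theorem Prim.bd {x : L ⊗[k] K} {a : L} (h : Prim v hv x a) : Bd v hv x a :=
  let ⟨_, z, _, hz⟩ := h; ⟨z, hz⟩

theorem Bd.mul {x y : L ⊗[k] K} {a c : L} (h : Bd v hv x a) (h' : Bd v hv y c) :
    Bd v hv (x * y) (a * c) := by
  obtain ⟨z, rfl⟩ := h
  obtain ⟨w, rfl⟩ := h'
  exact ⟨z * w, by rw [map_mul, smul_mul_smul_comm]⟩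

theorem Bd.sub {x y : L ⊗[k] K} {a : L} (h : Bd v hv x a) (h' : Bd v hv y a) :
    Bd v hv (x - y) a := by
  obtain ⟨z, rfl⟩ := h
  obtain ⟨w, rfl⟩ := h'
  exact ⟨z - w, by rw [map_sub, smul_sub]⟩

theorem Bd.ksmul {x : L ⊗[k] K} {a : L} (h : Bd v hv x a) (c : k) : Bd v hv (c • x) a := by
  obtain ⟨z, rfl⟩ := h
  exact ⟨c • z, by rw [map_smul, smul_comm]⟩

theorem Bd.der {x : L ⊗[k] K} {a : L} (h : Bd v hv x a) (δ : K →ₗ[k] K) :
    Bd v hv (δ.baseChange L x) a := by
  obtain ⟨z, rfl⟩ := h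
  exact ⟨δ.baseChange _ z, by rw [map_smul, bc_baseChange]⟩

theorem Bd.mono {x : L ⊗[k] K} {a c : L} (h : Bd v hv x a) (hc : c ≠ 0) (hac : v a ≤ v c) :
    Bd v hv x c := by
  obtain ⟨z, rfl⟩ := h
  have h1 : v (a / c) ≤ 1 := by
    rw [map_div₀]; exact div_le_one_of_le₀ hac zero_le
  refine ⟨(⟨a / c, h1⟩ : valO v hv) • z, ?_⟩
  rw [bc_smul, smul_smul]
  congr 1
  change a = c * (a / c)
  field_simp

theorem Bd.co_le {x : L ⊗[k] K} {a : L} (h : Bd v hv x a) {ι : Type*} (b : Basis ι k K) (i : ι) :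
    v (co b x i) ≤ v a := by
  obtain ⟨z, rfl⟩ := h
  rw [co_smul, co_bc, map_mul]
  exact mul_le_of_le_one_right' (co b z i).2

theorem Prim.le {x : L ⊗[k] K} {a c : L} (h : Prim v hv x a) (h' : Bd v hv x c) : v a ≤ v c := by
  obtain ⟨ha, z, hz, h1⟩ := h
  obtain ⟨w, h2⟩ := h'
  by_contra hc
  have h3 : v (c / a) < 1 := by
    rw [map_div₀]; exact (div_lt_one₀ (zero_lt_iff.2 ((map_ne_zero v).2 ha))).2 (not_le.1 hc)
  have h4 : z = (⟨c / a, h3.le⟩ : valO v hv) • w := by
    refine bc_injective (f := (valO v hv).val) Subtype.val_injective ?_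
    rw [bc_smul]
    refine smul_right_injective _ ha ?_
    simp only
    rw [← h1, h2, smul_smul]
    congr 1
    change c = a * (c / a)
    field_simp
  refine hz ?_
  let b := Basis.ofVectorSpace k K
  refine co_inj b fun i => ?_
  rw [h4, bc_smul, co_smul, Ideal.Quotient.mkₐ_eq_mk, Ideal.Quotient.eq_zero_iff_mem.2 h3,
    zero_mul, co_zero]

theorem Prim.mul [IsAlgClosed k] {x y : L ⊗[k] K} {a c : L} (h : Prim v hv x a)
    (h' : Prim v hv y c) : Prim v hv (x * y) (a * c) := by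
  obtain ⟨ha, z, hz, rfl⟩ := h
  obtain ⟨hc, w, hw, rfl⟩ := h'
  have := valM_prime v hv
  exact ⟨mul_ne_zero ha hc, z * w, by rw [map_mul]; exact tensor_mul_ne_zero hz hw,
    by rw [map_mul, smul_mul_smul_comm]⟩

theorem exists_prim {x : L ⊗[k] K} (hx : x ≠ 0) : ∃ a, Prim v hv x a := by
  let b := Basis.ofVectorSpace k K
  have hne : (co b x).support.Nonempty := by
    rw [Finsupp.support_nonempty_iff]
    exact fun h => hx (co_inj b fun i => by rw [h, co_zero]; rfl)
  obtain ⟨i, hi, hmax⟩ := Finset.exists_max_image _ (fun i => v (co b x i)) hne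
  have ha : co b x i ≠ 0 := Finsupp.mem_support_iff.1 hi
  obtain ⟨z, hz⟩ := exists_lift b (valO v hv).val ((co b x i)⁻¹ • x) fun l => by
    refine ⟨⟨co b ((co b x i)⁻¹ • x) l, ?_⟩, rfl⟩
    change v _ ≤ 1
    rw [co_smul, map_mul, map_inv₀, ← div_eq_inv_mul]
    refine div_le_one_of_le₀ ?_ zero_le
    by_cases hl : l ∈ (co b x).support
    · exact hmax l hl
    · rw [Finsupp.notMem_support_iff.1 hl, map_zero]; exact zero_le
  refine ⟨co b x i, ha, z, fun h0 => ?_, by rw [hz, smul_inv_smul₀ ha]⟩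
  have h1 : co b z i = 1 := by
    refine Subtype.ext ?_
    have := co_bc b (valO v hv).val z i
    rw [hz, co_smul, inv_mul_cancel₀ ha] at this
    exact this.symm
  have h2 := co_bc b (Ideal.Quotient.mkₐ k (valM v hv)) z i
  rw [h0, co_zero, h1, map_one] at h2
  have := valM_prime v hv
  exact zero_ne_one h2

theorem gauss_ineq [IsAlgClosed k] (δ : K →ₗ[k] K) {e₁ e₂ e₃ c : k} (hc : c ≠ 0) {α β : L ⊗[k] K}
    (h : (δ.baseChange L β * α - β * δ.baseChange L α) ^ 2
      = c • (α ^ 3 * ((β - e₁ • α) * (β - e₂ • α) * (β - e₃ • α))))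
    {a b₁ b₂ b₃ : L} (ha : Prim v hv α a) (h1 : Prim v hv (β - e₁ • α) b₁)
    (h2 : Prim v hv (β - e₂ • α) b₂) (h3 : Prim v hv (β - e₃ • α) b₃) :
    v a * v b₁ ≤ 1 ∧ v a * v b₂ ≤ 1 := by
  have hP := (ha.mul (ha.mul ha)).mul ((h1.mul h2).mul h3)
  have key : ∀ (e : k) (b' : L), Prim v hv (β - e • α) b' →
      v a * (v b₁ * v b₂ * v b₃) ≤ v b' * v b' := by
    intro e b' hb'
    have e1 : δ.baseChange L β * α - β * δ.baseChange L α
        = δ.baseChange L (β - e • α) * α - (β - e • α) * δ.baseChange L α := by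
      rw [map_sub, LinearMap.map_smul_of_tower, sub_mul, sub_mul, smul_mul_assoc, smul_mul_assoc,
        mul_comm α]
      ring
    have hB := ((hb'.bd.der δ).mul ha.bd).sub (hb'.bd.mul (ha.bd.der δ))
    rw [← e1] at hB
    have hB2 := (hB.mul hB).ksmul c⁻¹
    rw [← sq, h, inv_smul_smul₀ hc, show α ^ 3 = α * (α * α) by ring] at hB2
    have h4 := hP.le hB2
    simp only [map_mul] at h4
    have hva : 0 < v a * v a := by
      have := zero_lt_iff.2 ((map_ne_zero v).2 ha.1)
      exact mul_pos this this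
    refine le_of_mul_le_mul_of_pos_left ?_ hva
    calc v a * v a * (v a * (v b₁ * v b₂ * v b₃))
        = v a * (v a * v a) * (v b₁ * v b₂ * v b₃) := by ac_rfl
      _ ≤ v b' * v a * (v b' * v a) := h4
      _ = v a * v a * (v b' * v b') := by ac_rfl
  have fin : ∀ x y z w : Γ, 0 < y → 0 < z → w * (x * y * z) ≤ y * y → w * (x * y * z) ≤ z * z →
      w * x ≤ 1 := by
    intro x y z w hy hz p q
    rcases le_total y z with hyz | hyz
    · refine le_of_mul_le_mul_of_pos_right ?_ (mul_pos hy hz)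
      calc w * x * (y * z) = w * (x * y * z) := by ac_rfl
        _ ≤ y * y := p
        _ ≤ 1 * (y * z) := by rw [one_mul]; gcongr
    · refine le_of_mul_le_mul_of_pos_right ?_ (mul_pos hy hz)
      calc w * x * (y * z) = w * (x * y * z) := by ac_rfl
        _ ≤ z * z := q
        _ ≤ 1 * (y * z) := by rw [one_mul]; gcongr
  have p1 := zero_lt_iff.2 ((map_ne_zero v).2 h1.1)
  have p2 := zero_lt_iff.2 ((map_ne_zero v).2 h2.1)
  have p3 := zero_lt_iff.2 ((map_ne_zero v).2 h3.1)
  refine ⟨fin _ _ _ _ p2 p3 (key _ _ h2) (key _ _ h3), fin _ _ _ _ p1 p3 ?_ ?_⟩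
  · rw [mul_comm (v b₂)]; exact key _ _ h1
  · rw [mul_comm (v b₂)]; exact key _ _ h3

end Gauss

theorem mem_range_of_val {k L : Type*} [Field k] [IsAlgClosed k] [Field L] [Algebra k L] {x : L}
    (h : ∀ V : ValuationSubring L, (∀ c : k, V.valuation (algebraMap k L c) ≤ 1) →
      V.valuation x ≤ 1) : ∃ c : k, algebraMap k L c = x := by
  by_contra hx
  let R : Subring L := (⊥ : Subalgebra k L).toSubring
  have hR : IsIntegrallyClosedIn R L := by
    rw [Subring.isIntegrallyClosedIn_iff]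
    intro y hy
    have hy' : IsIntegral (⊥ : Subalgebra k L) y := hy
    have : Algebra.IsIntegral k (⊥ : Subalgebra k L) := ⟨fun z => by
      obtain ⟨c, hc⟩ := Algebra.mem_bot.1 z.2
      have : z = algebraMap k _ c := Subtype.ext hc.symm
      rw [this]; exact isIntegral_algebraMap⟩
    have hk : IsIntegral k y := isIntegral_trans y hy'
    exact Algebra.mem_bot.2 (minpoly.mem_range_of_degree_eq_one k y
      (IsAlgClosed.degree_eq_one_of_irreducible k (minpoly.irreducible hk)))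
  obtain ⟨V, hV, hxV⟩ := Subring.exists_le_valuationSubring_of_isIntegrallyClosedIn
    (x := x) (R := R) fun hm => hx (Algebra.mem_bot.1 hm)
  exact hxV ((V.valuation_le_one_iff x).1 (h V fun c =>
    (V.valuation_le_one_iff _).2 (hV (Algebra.mem_bot.2 ⟨c, rfl⟩))))

theorem core {k K L : Type*} [Field k] [IsAlgClosed k] [Field K] [Field L] [Algebra k K]
    [Algebra k L] (δ : K →ₗ[k] K) {e₁ e₂ e₃ c : k} (hc : c ≠ 0) (he : e₁ ≠ e₂) {α β : L ⊗[k] K}
    (h0 : α ≠ 0) (n1 : β - e₁ • α ≠ 0) (n2 : β - e₂ • α ≠ 0) (n3 : β - e₃ • α ≠ 0)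
    (h : (δ.baseChange L β * α - β * δ.baseChange L α) ^ 2
      = c • (α ^ 3 * ((β - e₁ • α) * (β - e₂ • α) * (β - e₃ • α))))
    {ι : Type*} (b : Basis ι k K) :
    (∀ i, ∃ c : k, algebraMap k L c = co b α i) ∧ ∀ i, ∃ c : k, algebraMap k L c = co b β i := by
  have hα : ∀ i, ∃ c : k, algebraMap k L c = co b α i := by
    intro i
    refine mem_range_of_val fun V hv => ?_
    obtain ⟨a, ha⟩ := exists_prim (v := V.valuation) (hv := hv) h0
    obtain ⟨b₁, h1⟩ := exists_prim (v := V.valuation) (hv := hv) n1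
    obtain ⟨b₂, h2⟩ := exists_prim (v := V.valuation) (hv := hv) n2
    obtain ⟨b₃, h3⟩ := exists_prim (v := V.valuation) (hv := hv) n3
    obtain ⟨g1, g2⟩ := gauss_ineq δ hc h ha h1 h2 h3
    have e : α = (e₂ - e₁)⁻¹ • ((β - e₁ • α) - (β - e₂ • α)) := by
      rw [sub_sub_sub_cancel_left, ← sub_smul, inv_smul_smul₀ (sub_ne_zero.2 he.symm)]
    have h4 : V.valuation a * V.valuation a ≤ 1 := by
      rcases le_total (V.valuation b₁) (V.valuation b₂) with hle | hle
      · have := ((h1.bd.mono h2.1 hle).sub h2.bd).ksmul (e₂ - e₁)⁻¹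
        rw [← e] at this
        exact le_trans (mul_le_mul_right (ha.le this) _) g2
      · have := (h1.bd.sub (h2.bd.mono h1.1 hle)).ksmul (e₂ - e₁)⁻¹
        rw [← e] at this
        exact le_trans (mul_le_mul_right (ha.le this) _) g1
    refine (ha.bd.co_le b i).trans ?_
    by_contra hc'
    exact absurd h4 (not_le.2 (one_lt_mul'' (not_le.1 hc') (not_le.1 hc')))
  refine ⟨hα, fun i => mem_range_of_val fun V hv => ?_⟩
  obtain ⟨a, ha⟩ := exists_prim (v := V.valuation) (hv := hv) h0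
  obtain ⟨b₁, h1⟩ := exists_prim (v := V.valuation) (hv := hv) n1
  obtain ⟨b₂, h2⟩ := exists_prim (v := V.valuation) (hv := hv) n2
  obtain ⟨b₃, h3⟩ := exists_prim (v := V.valuation) (hv := hv) n3
  obtain ⟨g1, -⟩ := gauss_ineq δ hc h ha h1 h2 h3
  obtain ⟨j, hj⟩ : ∃ j, co b α j ≠ 0 := by
    by_contra hh
    push Not at hh
    exact h0 (co_inj b fun i => by rw [hh, co_zero])
  obtain ⟨c', hc'⟩ := hα j
  have hc0 : c' ≠ 0 := fun e => hj (by rw [← hc', e, map_zero])
  have h5 : 1 ≤ V.valuation a := by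
    refine le_trans ?_ (ha.bd.co_le b j)
    rw [← hc']
    have h6 := hv c'⁻¹
    rw [map_inv₀, map_inv₀] at h6
    exact (inv_le_one₀ (zero_lt_iff.2 ((map_ne_zero _).2 ((map_ne_zero _).2 hc0)))).1 h6
  have h7 : V.valuation b₁ ≤ 1 := le_trans (le_mul_of_one_le_left' h5) g1
  have h8 : co b β i = co b (β - e₁ • α) i + algebraMap k L e₁ * co b α i := by
    rw [← co_smul, algebraMap_smul, ← Finsupp.add_apply, ← co_add, sub_add_cancel]
  obtain ⟨c'', hc''⟩ := hα i
  rw [h8, ← hc'', ← map_mul]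
  exact V.valuation.map_add_le ((h1.bd.co_le b i).trans h7) (hv _)

end Pool.Agent.Lib.MP_0c15f2_nt
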