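import Pool.Agent.Lib.MP_0c15f2_nt.Core

open TensorProduct Module Filter

namespace Pool.Agent.Lib.MP_0c15f2_nt

/-- the differential equation in homogeneous form -/
def Sol {k R : Type*} [Field k] [CommRing R] [Algebra k R] (δ : R → R) (c e₁ e₂ e₃ : k)
    (A B : R) : Prop :=
  A ≠ 0 ∧ B - e₁ • A ≠ 0 ∧ B - e₂ • A ≠ 0 ∧ B - e₃ • A ≠ 0 ∧
    (δ B * A - B * δ A) ^ 2 - c • (A ^ 3 * ((B - e₁ • A) * (B - e₂ • A) * (B - e₃ • A))) = 0

/-- values of the solutions in a finite dimensional family -/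
def Vals {k K : Type*} [Field k] [Field K] [Algebra k K] (δ : K →ₗ[k] K) (c e₁ e₂ e₃ : k) {r : ℕ}
    (a b : Fin r → K) : Set (K × K) :=
  {p | (∃ y : Fin r → k, p = (∑ i, y i • a i, ∑ i, y i • b i)) ∧ Sol δ c e₁ e₂ e₃ p.1 p.2}

/-- ultrapower -/
abbrev Up (k : Type*) := Germ (hyperfilter ℕ : Filter ℕ) k

noncomputable instance algUp {k : Type*} [Field k] : Algebra k (Up k) :=
  Algebra.ofModule
    (fun r x y => Germ.inductionOn₂ x y fun f g => by
      rw [← Germ.coe_smul, ← Germ.coe_mul, ← Germ.coe_mul, ← Germ.coe_smul, smul_mul_assoc])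
    (fun r x y => Germ.inductionOn₂ x y fun f g => by
      rw [← Germ.coe_smul, ← Germ.coe_mul, ← Germ.coe_mul, ← Germ.coe_smul, mul_smul_comm])

noncomputable instance algUp' {k K : Type*} [Field k] [Field K] [Algebra k K] :
    Algebra (Up k) (Up K) :=
  Algebra.ofModule
    (fun r x y => Germ.inductionOn₃ r x y fun r f g => by
      rw [← Germ.coe_smul', ← Germ.coe_mul, ← Germ.coe_mul, ← Germ.coe_smul', smul_mul_assoc])
    (fun r x y => Germ.inductionOn₃ r x y fun r f g => by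
      rw [← Germ.coe_smul', ← Germ.coe_mul, ← Germ.coe_mul, ← Germ.coe_smul', mul_smul_comm])

/-- projection to the ultrapower -/
noncomputable def pr (k : Type*) [Field k] : (ℕ → k) →ₐ[k] Up k :=
  AlgHom.mk' (Germ.coeRingHom _) fun _ _ => rfl

theorem pr_apply {k : Type*} [Field k] (f : ℕ → k) : pr k f = (f : Up k) := rfl

section PL

variable {k K : Type*} [Field k] [Field K] [Algebra k K]

/-- evaluation of a tensor -/
noncomputable def evn (k K : Type*) [Field k] [Field K] [Algebra k K] (n : ℕ) : (ℕ → k) ⊗[k] K →ₐ[k] K :=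
  (Algebra.TensorProduct.lid k K).toAlgHom.comp (bc K (Pi.evalAlgHom k (fun _ => k) n))

theorem evn_tmul (n : ℕ) (f : ℕ → k) (y : K) : evn k K n (f ⊗ₜ[k] y) = f n • y := by
  simp [evn, bc]

theorem repr_evn {ι : Type*} (b : Basis ι k K) (n : ℕ) (x : (ℕ → k) ⊗[k] K) (i : ι) :
    b.repr (evn k K n x) i = co b x i n := by
  induction x using TensorProduct.induction_on with
  | zero => simp [co_zero]
  | tmul a y => simp [evn_tmul, co_tmul, mul_comm]
  | add x y hx hy => simp [co_add, hx, hy]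

theorem evn_der (δ : K →ₗ[k] K) (n : ℕ) (x : (ℕ → k) ⊗[k] K) :
    evn k K n (δ.baseChange _ x) = δ (evn k K n x) := by
  induction x using TensorProduct.induction_on with
  | zero => simp
  | tmul a y => simp [evn_tmul]
  | add x y hx hy => simp [hx, hy]

theorem pr_zero_iff (x : (ℕ → k) ⊗[k] K) :
    bc K (pr k) x = 0 ↔ ∀ᶠ n in (hyperfilter ℕ : Filter ℕ), evn k K n x = 0 := by
  let b := Basis.ofVectorSpace k K
  constructor
  · intro h
    have h1 : ∀ i ∈ (co b x).support, ∀ᶠ n in (hyperfilter ℕ : Filter ℕ), co b x i n = 0 := by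
      intro i _
      have := co_bc b (pr k) x i
      rw [h, co_zero, pr_apply] at this
      exact Germ.coe_eq.1 (this.symm.trans Germ.coe_zero.symm)
    filter_upwards [(eventually_all_finset _).2 h1] with n hn
    refine b.repr.injective (Finsupp.ext fun i => ?_)
    rw [repr_evn, map_zero, Finsupp.zero_apply]
    by_cases hi : i ∈ (co b x).support
    · exact hn i hi
    · rw [Finsupp.notMem_support_iff.1 hi]; rfl
  · intro h
    refine co_inj b fun i => ?_
    rw [co_bc, co_zero, pr_apply, ← Germ.coe_zero, Germ.coe_eq]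
    filter_upwards [h] with n hn
    rw [← repr_evn, hn]; simp

theorem ev_const (x : (ℕ → k) ⊗[k] K) {ι : Type*} (b : Basis ι k K)
    (h : ∀ i, ∃ c : k, algebraMap k (Up k) c = co b (bc K (pr k) x) i) :
    ∃ z : K, ∀ᶠ n in (hyperfilter ℕ : Filter ℕ), evn k K n x = z := by
  obtain ⟨w, hw⟩ := exists_lift b (Algebra.ofId k (Up k)) _ h
  let j : k →ₐ[k] (ℕ → k) := Algebra.ofId k _
  have h1 : bc K (pr k) (x - bc K j w) = 0 := by
    rw [map_sub, ← hw, sub_eq_zero]
    refine co_inj b fun i => ?_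
    rw [co_bc, co_bc, co_bc]
    exact ((pr k).commutes _).symm
  refine ⟨Algebra.TensorProduct.lid k K w, ?_⟩
  filter_upwards [(pr_zero_iff _).1 h1] with n hn
  rw [map_sub, sub_eq_zero] at hn
  rw [hn]
  clear hn h1 hw
  induction w using TensorProduct.induction_on with
  | zero => simp
  | tmul a y => simp [bc, evn_tmul, j]
  | add x y hx hy => simp [hx, hy]

theorem vals_finite [IsAlgClosed k] (δ : K →ₗ[k] K) {c e₁ e₂ : k} (e₃ : k) (hc : c ≠ 0)
    (he : e₁ ≠ e₂) {r : ℕ} (a b : Fin r → K) : (Vals δ c e₁ e₂ e₃ a b).Finite := by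
  by_contra hinf
  let f := Set.Infinite.natEmbedding _ hinf
  choose y hy using fun n => (f n).2.1
  let α : (ℕ → k) ⊗[k] K := ∑ i, (fun n => y n i) ⊗ₜ[k] a i
  let β : (ℕ → k) ⊗[k] K := ∑ i, (fun n => y n i) ⊗ₜ[k] b i
  have hα : ∀ n, evn k K n α = (f n).1.1 := fun n => by
    rw [hy n]; simp [α, evn_tmul]
  have hβ : ∀ n, evn k K n β = (f n).1.2 := fun n => by
    rw [hy n]; simp [β, evn_tmul]
  have hne : ∀ x : (ℕ → k) ⊗[k] K, (∀ n, evn k K n x ≠ 0) → bc K (pr k) x ≠ 0 := fun x hx h => by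
    obtain ⟨n, hn⟩ := ((pr_zero_iff x).1 h).exists
    exact hx n hn
  have hn : ∀ e : k, (∀ n, (f n).1.2 - e • (f n).1.1 ≠ 0) →
      bc K (pr k) β - e • bc K (pr k) α ≠ 0 := fun e h => by
    rw [← map_smul, ← map_sub]
    exact hne _ fun n => by rw [map_sub, map_smul, hα, hβ]; exact h n
  have hE := (pr_zero_iff ((δ.baseChange _ β * α - β * δ.baseChange _ α) ^ 2 -
      c • (α ^ 3 * ((β - e₁ • α) * (β - e₂ • α) * (β - e₃ • α))))).2
    (Eventually.of_forall fun n => by
      simp only [map_sub, map_mul, map_pow, map_smul, evn_der, hα, hβ]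
      exact (f n).2.2.2.2.2.2)
  simp only [map_sub, map_mul, map_pow, map_smul, bc_baseChange] at hE
  obtain ⟨h1, h2⟩ := core δ hc he (hne α fun n => by rw [hα]; exact (f n).2.2.1)
    (hn _ fun n => (f n).2.2.2.1) (hn _ fun n => (f n).2.2.2.2.1)
    (hn _ fun n => (f n).2.2.2.2.2.1) (sub_eq_zero.1 hE) (Basis.ofVectorSpace k K)
  obtain ⟨z, hz⟩ := ev_const α _ h1
  obtain ⟨w, hw⟩ := ev_const β _ h2
  have h3 : {n | (f n).1 = (z, w)} ∈ hyperfilter ℕ := by
    filter_upwards [hz, hw] with n h h'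
    exact Prod.ext (by rw [← hα, h]) (by rw [← hβ, h'])
  refine (Set.Finite.notMem_hyperfilter (Set.Subsingleton.finite fun m hm n hn => ?_)) h3
  exact f.injective (Subtype.ext (hm.trans hn.symm))

end PL

theorem coe_sum {R ι : Type*} [Semiring R] (s : Finset ι) (f : ι → ℕ → R) :
    ((∑ i ∈ s, f i : ℕ → R) : Up R) = ∑ i ∈ s, (f i : Up R) :=
  map_sum (Germ.coeRingHom _) f s

instance upClosed {k : Type*} [Field k] [IsAlgClosed k] : IsAlgClosed (Up k) := by
  refine IsAlgClosed.of_exists_root _ fun p hp hi => ?_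
  have hs : Function.Surjective (Germ.coeRingHom (hyperfilter ℕ : Filter ℕ) : (ℕ → k) →+* Up k) :=
    fun x => Germ.inductionOn x fun f => ⟨f, rfl⟩
  obtain ⟨q, hq, hd, hm⟩ := Polynomial.lifts_and_degree_eq_and_monic
    (Polynomial.mem_lifts _ |>.2 (Polynomial.map_surjective _ hs p)) hp
  have hr : ∀ n, ∃ x : k, (q.map (Pi.evalRingHom (fun _ => k) n)).IsRoot x := fun n =>
    IsAlgClosed.exists_root _ (by
      rw [hm.degree_map, hd]; exact (Polynomial.degree_pos_of_irreducible hi).ne')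
  choose x hx using hr
  refine ⟨Germ.coeRingHom _ x, ?_⟩
  rw [← hq, Polynomial.eval_map_apply]
  have : q.eval x = 0 := funext fun n => by
    have := hx n
    rw [Polynomial.IsRoot, show x n = Pi.evalRingHom (fun _ => k) n x from rfl,
      Polynomial.eval_map_apply] at this
    exact this
  rw [this, map_zero]

/-- pointwise linear map on the ultrapower -/
noncomputable def upDer {k K : Type*} [Field k] [Field K] [Algebra k K] (δ : ℕ → K →ₗ[k] K) :
    Up K →ₗ[Up k] Up K where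
  toFun := Germ.map' (fun f n => δ n (f n)) fun f g h => h.mono fun n hn => by simp only [hn]
  map_add' := fun x y => Germ.inductionOn₂ x y fun f g => by
    rw [← Germ.coe_add, Germ.map'_coe, Germ.map'_coe, Germ.map'_coe, ← Germ.coe_add]
    congr 1; funext n; simp
  map_smul' := fun x y => Germ.inductionOn₂ x y fun f g => by
    rw [← Germ.coe_smul', Germ.map'_coe, Germ.map'_coe, RingHom.id_apply, ← Germ.coe_smul']
    congr 1; funext n; simp

theorem upDer_coe {k K : Type*} [Field k] [Field K] [Algebra k K] (δ : ℕ → K →ₗ[k] K)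
    (f : ℕ → K) : upDer δ (f : Up K) = ((fun n => δ n (f n) : ℕ → K) : Up K) := rfl

theorem coe_ne {R : Type*} [Zero R] {f : ℕ → R}
    (h : ∀ᶠ n in (hyperfilter ℕ : Filter ℕ), f n ≠ 0) : (f : Up R) ≠ 0 := fun h0 => by
  obtain ⟨n, h1, h2⟩ := (h.and (Germ.coe_eq.1 (h0.trans Germ.coe_zero.symm))).exists
  exact h1 h2

theorem vals_unif {k K : Type*} [Field k] [IsAlgClosed k] [Field K] [Algebra k K] {c : k}
    (hc : c ≠ 0) (r : ℕ) : ∃ M : ℕ, ∀ (δ : K →ₗ[k] K) (e₁ e₂ e₃ : k) (a b : Fin r → K), e₁ ≠ e₂ →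
      (Vals δ c e₁ e₂ e₃ a b).ncard ≤ M := by
  by_contra h
  push Not at h
  choose δ e₁ e₂ e₃ a b he hM using h
  have hf : ∀ M, ∃ g : ℕ → K × K, (∀ j ≤ M, g j ∈ Vals (δ M) c (e₁ M) (e₂ M) (e₃ M) (a M) (b M)) ∧
      ∀ i ≤ M, ∀ j ≤ M, g i = g j → i = j := by
    intro M
    obtain ⟨t, ht, hc⟩ := Set.exists_subset_card_eq (Nat.succ_le_of_lt (hM M))
    have hfin : t.Finite := Set.finite_of_ncard_ne_zero (by omega)
    have := hfin.to_subtype
    let e : t ≃ Fin (M + 1) := Finite.equivFinOfCardEq hc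
    refine ⟨fun j => if h : j < M + 1 then (e.symm ⟨j, h⟩).1 else 0, fun j hj => ?_,
      fun i hi j hj hij => ?_⟩
    · simp only [Nat.lt_succ_of_le hj, dif_pos]
      exact ht (e.symm _).2
    · simp only [Nat.lt_succ_of_le hj, Nat.lt_succ_of_le hi, dif_pos] at hij
      exact congrArg Fin.val (e.symm.injective (Subtype.ext hij))
  choose g hg hinj using hf
  have hge : ∀ j : ℕ, ∀ᶠ M in (hyperfilter ℕ : Filter ℕ), j ≤ M := fun j =>
    Nat.hyperfilter_le_atTop (eventually_ge_atTop j)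
  have he' : ((e₁ : ℕ → k) : Up k) ≠ (e₂ : Up k) := fun h0 => by
    obtain ⟨n, hn⟩ := (Germ.coe_eq.1 h0).exists
    exact he n hn
  have hfin := vals_finite (upDer δ) (c := ((fun _ => c : ℕ → k) : Up k)) (e₃ : Up k)
    (coe_ne (Eventually.of_forall fun _ => hc)) he' (fun i => ((fun n => a n i : ℕ → K) : Up K))
    (fun i => ((fun n => b n i : ℕ → K) : Up K))
  refine Set.infinite_of_injective_forall_mem
    (f := fun j => (((fun M => (g M j).1 : ℕ → K) : Up K), ((fun M => (g M j).2 : ℕ → K) : Up K)))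
    (fun i j hij => ?_) (fun j => ?_) hfin
  · obtain ⟨M, h1, h2, h3, h4⟩ := ((Germ.coe_eq.1 (congrArg Prod.fst hij)).and
      ((Germ.coe_eq.1 (congrArg Prod.snd hij)).and ((hge i).and (hge j)))).exists
    exact hinj M i h3 j h4 (Prod.ext h1 h2)
  · have hy : ∀ M, ∃ y : Fin r → k, j ≤ M → g M j = (∑ i, y i • a M i, ∑ i, y i • b M i) := by
      intro M
      by_cases hj : j ≤ M
      · obtain ⟨y, hy⟩ := (hg M j hj).1
        exact ⟨y, fun _ => hy⟩
      · exact ⟨0, fun h => absurd h hj⟩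
    choose y hy using hy
    have hs : ∀ᶠ M in (hyperfilter ℕ : Filter ℕ),
        Sol (δ M) c (e₁ M) (e₂ M) (e₃ M) (g M j).1 (g M j).2 :=
      (hge j).mono fun M hM => (hg M j hM).2
    refine ⟨⟨fun i => ((fun M => y M i : ℕ → k) : Up k), Prod.ext ?_ ?_⟩, ?_, ?_, ?_, ?_, ?_⟩
    · simp only [← Germ.coe_smul', ← coe_sum, Germ.coe_eq]
      filter_upwards [hge j] with M hM
      simp [hy M hM]
    · simp only [← Germ.coe_smul', ← coe_sum, Germ.coe_eq]
      filter_upwards [hge j] with M hM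
      simp [hy M hM]
    · exact coe_ne (hs.mono fun M h => h.1)
    · simp only [← Germ.coe_smul', ← Germ.coe_sub]
      exact coe_ne (hs.mono fun M h => h.2.1)
    · simp only [← Germ.coe_smul', ← Germ.coe_sub]
      exact coe_ne (hs.mono fun M h => h.2.2.1)
    · simp only [← Germ.coe_smul', ← Germ.coe_sub]
      exact coe_ne (hs.mono fun M h => h.2.2.2.1)
    · simp only [upDer_coe, ← Germ.coe_smul', ← Germ.coe_sub, ← Germ.coe_mul, ← Germ.coe_pow]
      rw [← Germ.coe_zero, Germ.coe_eq]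
      exact hs.mono fun M h => h.2.2.2.2

end Pool.Agent.Lib.MP_0c15f2_nt
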