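import Pool.Agent.Lib.MP_0c15f2_nt.Der
import Pool.Agent.Lib.MP_0c15f2_nt.Unif

open Filter Topology Set

namespace Pool.Agent.Lib.MP_0c15f2_nt

variable {L : PeriodPair}

/-- the field of algebraic numbers -/
noncomputable abbrev Qb := algebraicClosure ℚ ℂ

instance qbClosed : IsAlgClosed Qb := (algebraicClosure.isAlgClosure ℚ ℂ).isAlgClosed

theorem qb_smul (c : Qb) (x : ℂ) : c • x = (c : ℂ) * x := rfl

/-- a derivation is linear over the algebraic numbers -/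
noncomputable def derQ (δ : Derivation ℚ ℂ ℂ) : ℂ →ₗ[Qb] ℂ where
  toFun := δ
  map_add' := map_add δ
  map_smul' := fun c x => by
    simp only [qb_smul, RingHom.id_apply, Derivation.leibniz, smul_eq_mul,
      der_alg δ (mem_algebraicClosure_iff.1 c.2), mul_zero, add_zero]

/-- the exceptional points -/
def Exc (L : PeriodPair) (U : Submodule ℚ ℂ) : Set ℂ :=
  {u | u ∈ U ∧ u ∉ L.lattice ∧ IsAlgebraic ℚ (wzeta L u)}

theorem exists_rat_notMem (L : PeriodPair) {w : ℂ} (hw : w ≠ 0) : ∃ q : ℚ, q • w ∉ L.lattice := by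
  have h1 : Tendsto (fun n : ℕ => ((1 / ((n : ℚ) + 1) : ℚ)) • w) atTop (𝓝[≠] 0) := by
    refine tendsto_nhdsWithin_of_tendsto_nhds_of_eventually_within _ ?_
      (Eventually.of_forall fun n => smul_ne_zero (by positivity) hw)
    have := (tendsto_one_div_add_atTop_nhds_zero_nat (𝕜 := ℂ)).mul_const w
    rw [zero_mul] at this
    refine this.congr fun n => ?_
    rw [Rat.smul_def]; push_cast; ring
  obtain ⟨n, hn⟩ := (h1.eventually (ev_notMem L 0)).exists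
  exact ⟨_, hn⟩

theorem eq_of_sub_mem (h2 : IsAlgebraic ℚ L.g₂) (h3 : IsAlgebraic ℚ L.g₃) (hS : ∀ u, ¬ AlgPt L u)
    {u v : ℂ} (hu : u ∉ L.lattice) (hv : v ∉ L.lattice) (au : IsAlgebraic ℚ (wzeta L u))
    (av : IsAlgebraic ℚ (wzeta L v)) (h : u - v ∈ L.lattice) : u = v := by
  by_contra hne
  obtain ⟨q, hq⟩ := exists_rat_notMem L (sub_ne_zero.2 hne)
  have e1 : L.weierstrassP u = L.weierstrassP v := by
    rw [← wp_add (z := v) h]; congr 1; ring
  have e2 : L.derivWeierstrassP u = L.derivWeierstrassP v := by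
    rw [← wp'_add (z := v) h]; congr 1; ring
  have key : ∀ δ : Derivation ℚ ℂ ℂ,
      δ (L.weierstrassP (q • (u - v))) = 0 ∧ δ (wzeta L (q • (u - v))) = 0 := by
    intro δ
    obtain ⟨A, B, hA, hB⟩ := exists_ab h2 h3 δ
    have a0 : la L δ u = la L δ v := by simp [la, e1, e2]
    have b0 : lb L δ u = lb L δ v := by simp [lb, a0, e1, der_alg δ au, der_alg δ av]
    have a1 : la L δ (q • (u - v)) = 0 := by
      rw [← hA _ hq, map_smul, map_sub, hA _ hu, hA _ hv, a0, sub_self, smul_zero]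
    have b1 : lb L δ (q • (u - v)) = 0 := by
      rw [← hB _ hq, map_smul, map_sub, hB _ hu, hB _ hv, b0, sub_self, smul_zero]
    refine ⟨by rw [der_wp h2 h3 δ hq, a1, zero_mul], ?_⟩
    simpa [lb, a1] using b1
  exact hS _ ⟨hq, alg_of_der fun δ => (key δ).1, alg_of_der fun δ => (key δ).2⟩

theorem step_count (n : ℕ) : ∃ M : ℕ, ∀ L : PeriodPair, IsAlgebraic ℚ L.g₂ → IsAlgebraic ℚ L.g₃ →
    (∀ u, ¬ AlgPt L u) → ∀ U : Submodule ℚ ℂ, FiniteDimensional ℚ U → Module.finrank ℚ U = n →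
    ∀ (δ : Derivation ℚ ℂ ℂ) (A B : ℂ →ₗ[ℚ] ℂ), (∀ z, z ∉ L.lattice → A z = la L δ z) →
      (∀ z, z ∉ L.lattice → B z = lb L δ z) →
      {u ∈ Exc L U | A u ≠ 0}.Finite ∧ {u ∈ Exc L U | A u ≠ 0}.ncard ≤ M := by
  have h4 : (4 : Qb) ≠ 0 := by norm_num
  obtain ⟨M, hM⟩ := vals_unif (k := Qb) (K := ℂ) h4 n
  refine ⟨M, fun L h2 h3 hS U hU hn δ A B hA hB => ?_⟩
  obtain ⟨e₁, e₂, e₃, he, hfac⟩ := exists_roots L
  have a1 : IsAlgebraic ℚ e₁ := alg_root h2 h3 (by rw [hfac]; ring)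
  have a2 : IsAlgebraic ℚ e₂ := alg_root h2 h3 (by rw [hfac]; ring)
  have a3 : IsAlgebraic ℚ e₃ := alg_root h2 h3 (by rw [hfac]; ring)
  let f₁ : Qb := ⟨e₁, mem_algebraicClosure_iff.2 a1⟩
  let f₂ : Qb := ⟨e₂, mem_algebraicClosure_iff.2 a2⟩
  let f₃ : Qb := ⟨e₃, mem_algebraicClosure_iff.2 a3⟩
  have hf : f₁ ≠ f₂ := fun h => he (congrArg Subtype.val h)
  let bU := Module.finBasisOfFinrankEq ℚ U hn
  have hBA : ∀ u ∈ Exc L U, B u = L.weierstrassP u * A u := fun u hu => by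
    rw [hA _ hu.2.1, hB _ hu.2.1, lb, der_alg δ hu.2.2, zero_add]
  have hmaps : ∀ u ∈ {u ∈ Exc L U | A u ≠ 0}, (A u, B u) ∈
      Vals (derQ δ) 4 f₁ f₂ f₃ (fun i => A (bU i)) (fun i => B (bU i)) := by
    rintro u ⟨hu, hu0⟩
    have ht : ∀ e : Qb, B u - e • A u ≠ 0 := fun e h => by
      rw [hBA u hu, qb_smul, ← sub_mul, mul_eq_zero, sub_eq_zero] at h
      exact hS u ⟨hu.2.1, by rw [h.resolve_right hu0]; exact mem_algebraicClosure_iff.1 e.2, hu.2.2⟩
    have hrep : u = ∑ i, (bU.repr ⟨u, hu.1⟩ i) • (bU i : ℂ) := by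
      have := congrArg Subtype.val (bU.sum_repr ⟨u, hu.1⟩)
      rw [Submodule.coe_sum] at this
      exact this.symm
    refine ⟨⟨fun i => (bU.repr ⟨u, hu.1⟩ i : ℚ), Prod.ext ?_ ?_⟩, hu0, ht _, ht _, ht _, ?_⟩
    · conv_lhs => rw [hrep]
      simp only [map_sum, map_smul]
      simp [qb_smul, Rat.smul_def]
    · conv_lhs => rw [hrep]
      simp only [map_sum, map_smul]
      simp [qb_smul, Rat.smul_def]
    · have d1 := der_wp h2 h3 δ hu.2.1
      have d2 := L.derivWeierstrassP_sq u hu.2.1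
      rw [hfac] at d2
      rw [← hA _ hu.2.1] at d1
      change (δ (B u) * A u - B u * δ (A u)) ^ 2 - (4 : ℂ) * (A u ^ 3 *
        ((B u - e₁ * A u) * (B u - e₂ * A u) * (B u - e₃ * A u))) = 0
      rw [hBA u hu, Derivation.leibniz, d1, smul_eq_mul, smul_eq_mul]
      linear_combination A u ^ 6 * d2
  have hinj : InjOn (fun u => (A u, B u)) {u ∈ Exc L U | A u ≠ 0} := by
    rintro u ⟨hu, hu0⟩ v ⟨hv, hv0⟩ h
    simp only [Prod.mk.injEq] at h
    have e : L.weierstrassP u = L.weierstrassP v := by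
      have := h.2
      rw [hBA u hu, hBA v hv, ← h.1] at this
      exact mul_right_cancel₀ hu0 this
    rcases wp_inj hu.2.1 hv.2.1 e with h1 | h1
    · exact eq_of_sub_mem h2 h3 hS hu.2.1 hv.2.1 hu.2.2 hv.2.2 h1
    · have := eq_of_sub_mem h2 h3 hS hu.2.1 (neg_notMem hv.2.1) hu.2.2
        (by rw [wzeta_neg]; exact hv.2.2.neg) (by rwa [sub_neg_eq_add])
      exfalso
      apply hv0
      have h5 := h.1
      rw [this, map_neg] at h5
      linear_combination (-1 / 2 : ℂ) * h5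
  have hfin := vals_finite (derQ δ) f₃ h4 hf (fun i => A (bU i)) (fun i => B (bU i))
  exact ⟨Finite.of_injOn hmaps hinj hfin,
    (ncard_le_ncard_of_injOn _ hmaps hinj hfin).trans (hM _ _ _ _ _ _ hf)⟩

theorem count (r : ℕ) : ∃ M : ℕ, ∀ L : PeriodPair, IsAlgebraic ℚ L.g₂ → IsAlgebraic ℚ L.g₃ →
    (∀ u, ¬ AlgPt L u) → ∀ U : Submodule ℚ ℂ, FiniteDimensional ℚ U → Module.finrank ℚ U ≤ r →
    (Exc L U).Finite ∧ (Exc L U).ncard ≤ M := by
  induction r with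
  | zero =>
    refine ⟨0, fun L h2 h3 hS U hU hn => ?_⟩
    have : Exc L U = ∅ := eq_empty_of_forall_notMem fun u hu => by
      have h0 := Submodule.finrank_eq_zero.1 (Nat.le_zero.1 hn)
      have h1 := hu.1
      rw [h0, Submodule.mem_bot] at h1
      exact hu.2.1 (h1 ▸ L.lattice.zero_mem)
    simp [this]
  | succ r ih =>
    obtain ⟨M, hM⟩ := ih
    obtain ⟨N, hN⟩ := step_count (r + 1)
    refine ⟨M + N, fun L h2 h3 hS U hU hn => ?_⟩
    rcases Nat.lt_succ_iff_lt_or_eq.1 (Nat.lt_succ_of_le hn) with hlt | heq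
    · obtain ⟨i1, i2⟩ := hM L h2 h3 hS U hU (Nat.le_of_lt_succ hlt)
      exact ⟨i1, i2.trans (Nat.le_add_right _ _)⟩
    rcases (Exc L U).eq_empty_or_nonempty with h0 | ⟨u, hu⟩
    · simp [h0]
    obtain ⟨δ, hδ⟩ : ∃ δ : Derivation ℚ ℂ ℂ, δ (L.weierstrassP u) ≠ 0 := by
      by_contra hc
      push Not at hc
      exact hS u ⟨hu.2.1, alg_of_der hc, hu.2.2⟩
    obtain ⟨A, B, hA, hB⟩ := exists_ab h2 h3 δ
    have hAu : A u ≠ 0 := fun h => hδ (by rw [der_wp h2 h3 δ hu.2.1, ← hA _ hu.2.1, h, zero_mul])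
    have hlt : U ⊓ LinearMap.ker A < U :=
      lt_of_le_of_ne inf_le_left fun h => hAu (LinearMap.mem_ker.1 (h.ge hu.1).2)
    obtain ⟨i1, i2⟩ := hM L h2 h3 hS (U ⊓ LinearMap.ker A)
      (Submodule.finiteDimensional_inf_left _ _)
      (by have := Submodule.finrank_lt_finrank_of_lt hlt; omega)
    obtain ⟨j1, j2⟩ := hN L h2 h3 hS U hU heq δ A B hA hB
    have hsub : Exc L U ⊆ Exc L (U ⊓ LinearMap.ker A) ∪ {u ∈ Exc L U | A u ≠ 0} := fun v hv => by
      by_cases h : A v = 0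
      · exact Or.inl ⟨⟨hv.1, h⟩, hv.2⟩
      · exact Or.inr ⟨hv, h⟩
    exact ⟨(i1.union j1).subset hsub, (ncard_le_ncard hsub (i1.union j1)).trans
      ((ncard_union_le _ _).trans (Nat.add_le_add i2 j2))⟩

end Pool.Agent.Lib.MP_0c15f2_nt
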