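import Mathlib

namespace Pool.Agent.Lib.MP_0c15f2_nt

/-- The Weierstrass zeta function of a lattice:
`1 / z + ∑ (1 / (z - ω) + 1 / ω + z / ω ^ 2)` over the nonzero lattice points `ω`
(the term of `ω = 0` below is `1 / z`, because `1 / 0 = 0`). -/
noncomputable def wzeta (L : PeriodPair) (z : ℂ) : ℂ :=
  ∑' l : L.lattice, (1 / (z - l) + 1 / (l : ℂ) + z / (l : ℂ) ^ 2)

end Pool.Agent.Lib.MP_0c15f2_nt
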