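import Pool.Agent.Lib.MP_0c15f2_nt.Add
import Pool.Agent.Lib.MP_813db1_ag.Der

open Filter Topology Set

namespace Pool.Agent.Lib.MP_0c15f2_nt

variable {L : PeriodPair}

theorem exists_gen (L : PeriodPair) (u v w : ℂ) : ∃ t : ℂ, ∀ n m k j : ℤ, n ≠ 0 → ∀ x : ℂ,
    x = n * t + m * u + k * v + j * w → x ∉ L.lattice := by
  have : Countable L.lattice := (countable_lattice L).to_subtype
  have hc : (range fun p : L.lattice × ℤ × ℤ × ℤ × ℤ =>
      ((p.1 : ℂ) - p.2.2.1 * u - p.2.2.2.1 * v - p.2.2.2.2 * w) / p.2.1).Countable :=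
    countable_range _
  obtain ⟨t, ht⟩ : ∃ t, t ∉ range fun p : L.lattice × ℤ × ℤ × ℤ × ℤ =>
      ((p.1 : ℂ) - p.2.2.1 * u - p.2.2.2.1 * v - p.2.2.2.2 * w) / p.2.1 := by
    by_contra h
    push Not at h
    exact not_countable_complex (hc.mono fun x _ => h x)
  refine ⟨t, fun n m k j hn x hx hmem => ht ⟨(⟨x, hmem⟩, n, m, k, j), ?_⟩⟩
  have : (n : ℂ) ≠ 0 := by exact_mod_cast hn
  simp only
  rw [hx]; field_simp; ring

theorem exists_additive {f : ℂ → ℂ}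
    (hgen : ∀ s t : ℂ, s ∉ L.lattice → t ∉ L.lattice → s + t ∉ L.lattice → s - t ∉ L.lattice →
      2 * s + t ∉ L.lattice → s + 2 * t ∉ L.lattice → f (s + t) = f s + f t) :
    ∃ F : ℂ →+ ℂ, ∀ z, z ∉ L.lattice → F z = f z := by
  have hall : ∀ u v : ℂ, u ∉ L.lattice → v ∉ L.lattice → u + v ∉ L.lattice →
      f (u + v) = f u + f v := by
    intro u v hu hv huv
    obtain ⟨t, ht⟩ := exists_gen L u v 0
    have h1 := hgen (u + v) t huv (ht 1 0 0 0 one_ne_zero _ (by push_cast; ring))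
      (ht 1 1 1 0 one_ne_zero _ (by push_cast; ring))
      (ht (-1) 1 1 0 (by norm_num) _ (by push_cast; ring))
      (ht 1 2 2 0 one_ne_zero _ (by push_cast; ring))
      (ht 2 1 1 0 (by norm_num) _ (by push_cast; ring))
    have h2 := hgen u (v + t) hu (ht 1 0 1 0 one_ne_zero _ (by push_cast; ring))
      (ht 1 1 1 0 one_ne_zero _ (by push_cast; ring))
      (ht (-1) 1 (-1) 0 (by norm_num) _ (by push_cast; ring))
      (ht 1 2 1 0 one_ne_zero _ (by push_cast; ring))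
      (ht 2 1 2 0 (by norm_num) _ (by push_cast; ring))
    have h3 := hgen v t hv (ht 1 0 0 0 one_ne_zero _ (by push_cast; ring))
      (ht 1 0 1 0 one_ne_zero _ (by push_cast; ring))
      (ht (-1) 0 1 0 (by norm_num) _ (by push_cast; ring))
      (ht 1 0 2 0 one_ne_zero _ (by push_cast; ring))
      (ht 2 0 1 0 (by norm_num) _ (by push_cast; ring))
    rw [← add_assoc] at h2
    linear_combination h2 + h3 - h1
  have hind : ∀ z w w' : ℂ, w ∉ L.lattice → z + w ∉ L.lattice → w' ∉ L.lattice →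
      z + w' ∉ L.lattice → f (z + w) - f w = f (z + w') - f w' := by
    intro z w w' h1 h2 h3 h4
    obtain ⟨t, ht⟩ := exists_gen L z w w'
    have a1 := hall (z + w) t h2 (ht 1 0 0 0 one_ne_zero _ (by push_cast; ring))
      (ht 1 1 1 0 one_ne_zero _ (by push_cast; ring))
    have a2 := hall w t h1 (ht 1 0 0 0 one_ne_zero _ (by push_cast; ring))
      (ht 1 0 1 0 one_ne_zero _ (by push_cast; ring))
    have a3 := hall (z + w') (w + t - w') h4 (ht 1 0 1 (-1) one_ne_zero _ (by push_cast; ring))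
      (ht 1 1 1 0 one_ne_zero _ (by push_cast; ring))
    have a4 := hall w' (w + t - w') h3 (ht 1 0 1 (-1) one_ne_zero _ (by push_cast; ring))
      (ht 1 0 1 0 one_ne_zero _ (by push_cast; ring))
    rw [show z + w' + (w + t - w') = z + w + t by ring] at a3
    rw [show w' + (w + t - w') = w + t by ring] at a4
    linear_combination a3 - a4 - a1 + a2
  have hch : ∀ z : ℂ, ∃ w, w ∉ L.lattice ∧ z + w ∉ L.lattice := by
    intro z
    obtain ⟨t, ht⟩ := exists_gen L z 0 0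
    exact ⟨t, ht 1 0 0 0 one_ne_zero _ (by push_cast; ring),
      ht 1 1 0 0 one_ne_zero _ (by push_cast; ring)⟩
  choose w hw hw' using hch
  refine ⟨AddMonoidHom.mk' (fun z => f (z + w z) - f (w z)) ?_, fun z hz => ?_⟩
  · intro z z'
    obtain ⟨t, ht⟩ := exists_gen L z z' 0
    have b0 : t ∉ L.lattice := ht 1 0 0 0 one_ne_zero _ (by push_cast; ring)
    have b1 : z' + t ∉ L.lattice := ht 1 0 1 0 one_ne_zero _ (by push_cast; ring)
    have b2 : z + z' + t ∉ L.lattice := ht 1 1 1 0 one_ne_zero _ (by push_cast; ring)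
    rw [hind (z + z') _ t (hw _) (hw' _) b0 b2,
      hind z _ (z' + t) (hw _) (hw' _) b1 (by rwa [← add_assoc]),
      hind z' _ t (hw _) (hw' _) b0 b1, ← add_assoc]
    ring
  · simp only [AddMonoidHom.mk'_apply]
    rw [hall z (w z) hz (hw z) (hw' z)]
    ring

theorem alg_add {x₁ x₂ x₃ y₁ y₂ y₃ a₁ a₂ a₃ g g₃ l l' : ℂ} (n12 : x₁ ≠ x₂) (n13 : x₁ ≠ x₃)
    (n23 : x₂ ≠ x₃) (w1 : y₁ ^ 2 = 4 * x₁ ^ 3 - g * x₁ - g₃)
    (w2 : y₂ ^ 2 = 4 * x₂ ^ 3 - g * x₂ - g₃)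
    (r0 : l ^ 2 = x₁ + x₂ + x₃) (r1 : 2 * l * (x₁ - x₃) = y₁ + y₃)
    (r2 : 2 * l * (x₂ - x₃) = y₂ + y₃)
    (e1 : 2 * l' * (x₁ - x₃) + 2 * l * (a₁ * y₁ - a₃ * y₃)
      = a₁ * (6 * x₁ ^ 2 - g / 2) + a₃ * (6 * x₃ ^ 2 - g / 2))
    (e2 : 2 * l' * (x₂ - x₃) + 2 * l * (a₂ * y₂ - a₃ * y₃)
      = a₂ * (6 * x₂ ^ 2 - g / 2) + a₃ * (6 * x₃ ^ 2 - g / 2))
    (e0 : 2 * l * l' = a₁ * y₁ + a₂ * y₂ + a₃ * y₃) :
    a₃ = a₁ + a₂ ∧ l' + x₃ * a₃ = x₁ * a₁ + x₂ * a₂ := by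
  have d12 := sub_ne_zero.2 n12
  have d13 := sub_ne_zero.2 n13
  have d23 := sub_ne_zero.2 n23
  have h12 : 2 * l * (y₁ + y₂) = 4 * (x₁ ^ 2 + x₁ * x₂ + x₂ ^ 2) - g := by
    refine mul_left_cancel₀ d12 ?_
    linear_combination (y₁ + y₂) * (r1 - r2) + w1 - w2
  have s1 : 6 * x₁ ^ 2 - g / 2 - 2 * l * y₁ = 2 * (x₁ - x₂) * (x₁ - x₃) := by
    linear_combination (-1 / 2 : ℂ) * h12 + l * (r1 - r2) - 2 * (x₁ - x₂) * r0
  have s2 : 6 * x₂ ^ 2 - g / 2 - 2 * l * y₂ = 2 * (x₂ - x₁) * (x₂ - x₃) := by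
    linear_combination (-1 / 2 : ℂ) * h12 - l * (r1 - r2) + 2 * (x₁ - x₂) * r0
  have s3 : 6 * x₃ ^ 2 - g / 2 + 2 * l * y₃ = 2 * (x₃ - x₁) * (x₃ - x₂) := by
    linear_combination (-1 / 2 : ℂ) * h12 - l * (r1 + r2) + 2 * (x₁ + x₂ - 2 * x₃) * r0
  have f1 : l' = a₁ * (x₁ - x₂) + a₃ * (x₂ - x₃) := by
    refine mul_left_cancel₀ d13 ?_
    linear_combination (1 / 2 : ℂ) * (e1 + a₁ * s1 + a₃ * s3)
  have f2 : l' = a₂ * (x₂ - x₁) + a₃ * (x₁ - x₃) := by
    refine mul_left_cancel₀ d23 ?_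
    linear_combination (1 / 2 : ℂ) * (e2 + a₂ * s2 + a₃ * s3)
  have f3 : a₃ = a₁ + a₂ := by
    refine mul_left_cancel₀ d12 ?_
    linear_combination f1 - f2
  exact ⟨f3, by rw [f1, f3]; ring⟩

theorem der_alg (δ : Derivation ℚ ℂ ℂ) {x : ℂ} (hx : IsAlgebraic ℚ x) : δ x = 0 := by
  refine MP_813db1_ag.der_of_isAlgebraic δ ⊥ (fun y hy => ?_) (hx.tower_top _)
  obtain ⟨c, rfl⟩ := IntermediateField.mem_bot.1 hy
  exact δ.map_algebraMap c

theorem alg_of_der {x : ℂ} (h : ∀ δ : Derivation ℚ ℂ ℂ, δ x = 0) : IsAlgebraic ℚ x := by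
  by_contra hx
  have hi : AlgebraicIndependent ℚ (fun _ : Unit => x) :=
    algebraicIndependent_unique_type_iff.2 hx
  obtain ⟨D, hD⟩ := MP_813db1_ag.exists_der _ hi (fun _ => 1)
  exact one_ne_zero ((hD ()).symm.trans (h D))

theorem alg_root {g₂ g₃ x : ℂ} (h2 : IsAlgebraic ℚ g₂) (h3 : IsAlgebraic ℚ g₃)
    (h : 4 * x ^ 3 - g₂ * x - g₃ = 0) : IsAlgebraic ℚ x := by
  let a : algebraicClosure ℚ ℂ := ⟨g₂, mem_algebraicClosure_iff.2 h2⟩
  let b : algebraicClosure ℚ ℂ := ⟨g₃, mem_algebraicClosure_iff.2 h3⟩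
  have hx : IsAlgebraic (algebraicClosure ℚ ℂ) x := by
    refine ⟨Polynomial.C 4 * Polynomial.X ^ 3 - Polynomial.C a * Polynomial.X - Polynomial.C b,
      fun h0 => ?_, ?_⟩
    · have := congrArg (fun p => Polynomial.coeff p 3) h0
      simp at this
    · simp only [map_sub, map_mul, Polynomial.aeval_C, map_pow, Polynomial.aeval_X]
      rw [← h]; rfl
  by_contra hc
  exact Transcendental.algebraicClosure (F := ℚ) hc hx

/-- first logarithmic derivative -/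
noncomputable def la (L : PeriodPair) (δ : Derivation ℚ ℂ ℂ) (u : ℂ) : ℂ :=
  δ (L.weierstrassP u) / L.derivWeierstrassP u

/-- second logarithmic derivative -/
noncomputable def lb (L : PeriodPair) (δ : Derivation ℚ ℂ ℂ) (u : ℂ) : ℂ :=
  δ (wzeta L u) + L.weierstrassP u * la L δ u

theorem der_wp (h2 : IsAlgebraic ℚ L.g₂) (h3 : IsAlgebraic ℚ L.g₃) (δ : Derivation ℚ ℂ ℂ) {u : ℂ}
    (hu : u ∉ L.lattice) : δ (L.weierstrassP u) = la L δ u * L.derivWeierstrassP u := by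
  by_cases h : L.derivWeierstrassP u = 0
  · rw [h, mul_zero]
    refine der_alg δ (alg_root h2 h3 ?_)
    rw [← L.derivWeierstrassP_sq u hu, h]; simp
  · rw [la, div_mul_cancel₀ _ h]

theorem der_two (δ : Derivation ℚ ℂ ℂ) : δ (2 : ℂ) = 0 := by exact_mod_cast δ.map_natCast 2

theorem der_four (δ : Derivation ℚ ℂ ℂ) : δ (4 : ℂ) = 0 := by exact_mod_cast δ.map_natCast 4

theorem der_wp' (h2 : IsAlgebraic ℚ L.g₂) (h3 : IsAlgebraic ℚ L.g₃) (δ : Derivation ℚ ℂ ℂ) {u : ℂ}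
    (hu : u ∉ L.lattice) :
    δ (L.derivWeierstrassP u) = la L δ u * (6 * L.weierstrassP u ^ 2 - L.g₂ / 2) := by
  by_cases h : L.derivWeierstrassP u = 0
  · simp [h, la]
  · have h1 := congrArg δ (L.derivWeierstrassP_sq u hu)
    simp only [map_sub, Derivation.leibniz, Derivation.leibniz_pow, der_alg δ h2, der_alg δ h3,
      der_four, smul_eq_mul, nsmul_eq_mul, der_wp h2 h3 δ hu] at h1
    refine mul_left_cancel₀ h ?_
    push_cast at h1
    linear_combination (1 / 2 : ℂ) * h1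

theorem gen_add (h2 : IsAlgebraic ℚ L.g₂) (h3 : IsAlgebraic ℚ L.g₃) (δ : Derivation ℚ ℂ ℂ)
    {s t : ℂ} (hs : s ∉ L.lattice) (ht : t ∉ L.lattice) (hst : s + t ∉ L.lattice)
    (a1 : s - t ∉ L.lattice) (a2 : 2 * s + t ∉ L.lattice) (a3 : s + 2 * t ∉ L.lattice) :
    la L δ (s + t) = la L δ s + la L δ t ∧ lb L δ (s + t) = lb L δ s + lb L δ t := by
  have n12 : L.weierstrassP s ≠ L.weierstrassP t := fun h => (wp_inj hs ht h).elim a1 hst
  have n13 : L.weierstrassP s ≠ L.weierstrassP (s + t) := fun h => (wp_inj hs hst h).elim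
    (fun h => neg_notMem ht (by convert h using 1; ring)) (fun h => a2 (by convert h using 1; ring))
  have n23 : L.weierstrassP t ≠ L.weierstrassP (s + t) := fun h => (wp_inj ht hst h).elim
    (fun h => neg_notMem hs (by convert h using 1; ring)) (fun h => a3 (by convert h using 1; ring))
  have r0 := fs hs ht hst
  have r1 := fs_deriv hs ht hst
  have r2 := fs_deriv ht hs (by rwa [add_comm])
  rw [add_comm t s, sub_right_comm] at r2
  set l := wzeta L (s + t) - wzeta L s - wzeta L t with hl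
  have e0 := congrArg δ r0
  have e1 := congrArg δ r1
  have e2 := congrArg δ r2
  simp only [map_sub, map_add, Derivation.leibniz, Derivation.leibniz_pow, der_two, smul_eq_mul,
    nsmul_eq_mul, der_wp h2 h3 δ hs, der_wp h2 h3 δ ht, der_wp h2 h3 δ hst,
    der_wp' h2 h3 δ hs, der_wp' h2 h3 δ ht, der_wp' h2 h3 δ hst] at e0 e1 e2
  obtain ⟨c1, c2⟩ := alg_add (a₁ := la L δ s) (a₂ := la L δ t) (a₃ := la L δ (s + t)) (l' := δ l)
    n12 n13 n23 (L.derivWeierstrassP_sq s hs) (L.derivWeierstrassP_sq t ht) r0 r1 r2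
    (by linear_combination e1) (by linear_combination e2) (by push_cast at e0; linear_combination e0)
  refine ⟨c1, ?_⟩
  rw [hl, map_sub, map_sub] at c2
  unfold lb
  linear_combination c2

theorem exists_ab (h2 : IsAlgebraic ℚ L.g₂) (h3 : IsAlgebraic ℚ L.g₃) (δ : Derivation ℚ ℂ ℂ) :
    ∃ A B : ℂ →ₗ[ℚ] ℂ, (∀ z, z ∉ L.lattice → A z = la L δ z) ∧
      ∀ z, z ∉ L.lattice → B z = lb L δ z := by
  obtain ⟨A, hA⟩ := exists_additive (L := L) (f := la L δ)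
    fun s t b1 b2 b3 b4 b5 b6 => (gen_add h2 h3 δ b1 b2 b3 b4 b5 b6).1
  obtain ⟨B, hB⟩ := exists_additive (L := L) (f := lb L δ)
    fun s t b1 b2 b3 b4 b5 b6 => (gen_add h2 h3 δ b1 b2 b3 b4 b5 b6).2
  exact ⟨A.toRatLinearMap, B.toRatLinearMap, hA, hB⟩

/-- both values algebraic -/
def AlgPt (L : PeriodPair) (z : ℂ) : Prop :=
  z ∉ L.lattice ∧ IsAlgebraic ℚ (L.weierstrassP z) ∧ IsAlgebraic ℚ (wzeta L z)

theorem AlgPt.smul (h2 : IsAlgebraic ℚ L.g₂) (h3 : IsAlgebraic ℚ L.g₃) {u : ℂ} (hu : AlgPt L u)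
    (q : ℚ) (hq : q • u ∉ L.lattice) : AlgPt L (q • u) := by
  have key : ∀ δ : Derivation ℚ ℂ ℂ, δ (L.weierstrassP (q • u)) = 0 ∧ δ (wzeta L (q • u)) = 0 := by
    intro δ
    obtain ⟨A, B, hA, hB⟩ := exists_ab h2 h3 δ
    have a0 : la L δ u = 0 := by simp [la, der_alg δ hu.2.1]
    have b0 : lb L δ u = 0 := by simp [lb, a0, der_alg δ hu.2.2]
    have a1 : la L δ (q • u) = 0 := by rw [← hA _ hq, map_smul, hA _ hu.1, a0, smul_zero]
    have b1 : lb L δ (q • u) = 0 := by rw [← hB _ hq, map_smul, hB _ hu.1, b0, smul_zero]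
    refine ⟨by rw [der_wp h2 h3 δ hq, a1, zero_mul], ?_⟩
    simpa [lb, a1] using b1
  exact ⟨hq, alg_of_der fun δ => (key δ).1, alg_of_der fun δ => (key δ).2⟩

end Pool.Agent.Lib.MP_0c15f2_nt
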