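import Pool.Agent.Lib.MP_0c15f2_nt.Add

open Filter Topology Set Metric

namespace Pool.Agent.Lib.MP_0c15f2_nt

open MP_9177b7_ag.CM.Rat

variable {L : PeriodPair}

theorem exists_near (L : PeriodPair) : ∃ C : ℝ, 1 ≤ C ∧ ∀ z : ℂ, ∃ l ∈ L.lattice, ‖z - l‖ ≤ C ∧
    (z ∉ L.lattice → ‖(z - l) ^ 2 * L.weierstrassP (z - l)‖ ≤ C ∧
      ‖(z - l) ^ 2 * wzeta L (z - l)‖ ≤ C) := by
  let V : Set ℂ := {z | ∀ l ∈ L.lattice, ‖z‖ ≤ ‖z - l‖}
  have hVc : IsClosed V := by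
    have : V = ⋂ l ∈ L.lattice, {z : ℂ | ‖z‖ ≤ ‖z - l‖} := by ext z; simp [V]
    rw [this]
    exact isClosed_biInter fun l _ => isClosed_le (by fun_prop) (by fun_prop)
  have hVb : ∀ z ∈ V, ‖z‖ ≤ ∑ i, ‖L.basis i‖ := by
    intro z hz
    have hl : ((ZSpan.floor L.basis z : ℂ)) ∈ L.lattice := by
      rw [L.lattice_eq_span_range_basis]; exact (ZSpan.floor L.basis z).2
    exact (hz _ hl).trans (ZSpan.norm_fract_le L.basis z)
  have hK : IsCompact V := isCompact_of_isClosed_isBounded hVc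
    ((isBounded_closedBall (x := (0 : ℂ)) (r := ∑ i, ‖L.basis i‖)).subset fun z hz => by
      simpa using hVb z hz)
  have hV0 : ∀ z ∈ V, z ∈ ((L.lattice : Set ℂ) \ {0})ᶜ := fun z hz h => by
    have := hz z h.1
    rw [sub_self, norm_zero, norm_le_zero_iff] at this
    exact h.2 this
  have c1 : ContinuousOn (fun z : ℂ => 1 + z ^ 2 * L.weierstrassPExcept 0 z) V := fun z hz => by
    have := ((L.differentiableOn_weierstrassPExcept 0).differentiableAt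
      (L.isOpen_compl_lattice_sdiff.mem_nhds (hV0 z hz))).continuousAt
    exact ContinuousAt.continuousWithinAt (by fun_prop)
  have c2 : ContinuousOn (fun z : ℂ => z + z ^ 2 * wzE L z) V := fun z hz => by
    have := (analyticOnNhd_wzE L z (hV0 z hz)).continuousAt
    exact ContinuousAt.continuousWithinAt (by fun_prop)
  obtain ⟨C1, h1⟩ := hK.exists_bound_of_continuousOn c1
  obtain ⟨C2, h2⟩ := hK.exists_bound_of_continuousOn c2
  refine ⟨max (max 1 (∑ i, ‖L.basis i‖)) (max C1 C2), by simp, fun z => ?_⟩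
  obtain ⟨l, hl, hd⟩ := L.isClosed_lattice.exists_infDist_eq_dist ⟨0, L.lattice.zero_mem⟩ z
  have hV : z - l ∈ V := fun l' hl' => by
    rw [← dist_eq_norm, ← hd, sub_sub, ← dist_eq_norm]
    exact infDist_le_dist_of_mem (L.lattice.add_mem hl hl')
  refine ⟨l, hl, (hVb _ hV).trans (by simp), fun hz => ⟨?_, ?_⟩⟩
  · have h0 : z - l ≠ 0 := fun h => hz (by rw [sub_eq_zero.1 h]; exact hl)
    refine le_trans (le_of_eq ?_) ((h1 _ hV).trans (by simp))
    rw [wp_eq]; congr 1; field_simp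
  · have h0 : z - l ≠ 0 := fun h => hz (by rw [sub_eq_zero.1 h]; exact hl)
    refine le_trans (le_of_eq ?_) ((h2 _ hV).trans (by simp))
    rw [wzeta_eq]; congr 1; field_simp

/-- lattice point with given coordinates -/
def lp (L : PeriodPair) (p : ℤ × ℤ) : ℂ := p.1 * L.ω₁ + p.2 * L.ω₂

theorem lp_mem (p : ℤ × ℤ) : lp L p ∈ L.lattice := PeriodPair.mem_lattice.2 ⟨p.1, p.2, rfl⟩

theorem exists_coord (L : PeriodPair) : ∃ c : ℝ, 0 ≤ c ∧ ∀ p : ℤ × ℤ,
    |(p.1 : ℝ)| ≤ c * ‖lp L p‖ ∧ |(p.2 : ℝ)| ≤ c * ‖lp L p‖ := by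
  let f := LinearMap.toContinuousLinearMap (L.basis.coord 0)
  let g := LinearMap.toContinuousLinearMap (L.basis.coord 1)
  refine ⟨max ‖f‖ ‖g‖, by positivity, fun p => ?_⟩
  have e : lp L p = (p.1 : ℝ) • L.basis 0 + (p.2 : ℝ) • L.basis 1 := by simp [lp]
  have e1 : f (lp L p) = p.1 := by
    rw [e, map_add, map_smul, map_smul]; simp [f, -PeriodPair.basis_zero, -PeriodPair.basis_one]
  have e2 : g (lp L p) = p.2 := by
    rw [e, map_add, map_smul, map_smul]; simp [g, -PeriodPair.basis_zero, -PeriodPair.basis_one]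
  constructor
  · rw [← e1, ← Real.norm_eq_abs]
    exact (f.le_opNorm _).trans (by gcongr; exact le_max_left _ _)
  · rw [← e2, ← Real.norm_eq_abs]
    exact (g.le_opNorm _).trans (by gcongr; exact le_max_right _ _)

theorem eta_add {l l' : ℂ} (hl : l ∈ L.lattice) (hl' : l' ∈ L.lattice) :
    eta L (l + l') = eta L l + eta L l' := by
  have h := wzeta_add (add_notMem L.ω₁_div_two_notMem_lattice hl) hl'
  rw [eta, eta, ← add_assoc, h]; ring

theorem eta_lp (p : ℤ × ℤ) : eta L (lp L p) = p.1 * eta L L.ω₁ + p.2 * eta L L.ω₂ := by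
  let η : L.lattice →+ ℂ := AddMonoidHom.mk' (fun l => eta L l) fun a b => eta_add a.2 b.2
  have : (⟨lp L p, lp_mem p⟩ : L.lattice)
      = p.1 • ⟨L.ω₁, L.ω₁_mem_lattice⟩ + p.2 • ⟨L.ω₂, L.ω₂_mem_lattice⟩ :=
    Subtype.ext (by simp [lp])
  have h := congrArg η this
  rw [map_add, map_zsmul, map_zsmul] at h
  simpa [η] using h

theorem pole_wzeta {t : ℂ} (ht : t ∈ L.lattice) : Pole (wzeta L) t 2 := by
  refine ⟨fun z => (z - t) + (z - t) ^ 2 * (wzE L (z - t) + eta L t), ?_, ?_⟩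
  · have h1 : AnalyticAt ℂ (wzE L) (t - t) := analyticOnNhd_wzE L _ (by simp)
    have h2 : AnalyticAt ℂ (fun z => wzE L (z - t)) t := h1.comp (f := fun z => z - t) (by fun_prop)
    fun_prop
  · filter_upwards [self_mem_nhdsWithin, ev_notMem L t] with z hz hz'
    have h0 : z - t ≠ 0 := sub_ne_zero.2 hz
    have h1 := wzeta_add (add_notMem hz' (L.lattice.neg_mem ht)) ht
    rw [neg_add_cancel_right, ← sub_eq_add_neg, wzeta_eq L (z - t)] at h1
    rw [h1]; field_simp; ring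

theorem lin_le_pow {a b : ℝ} (ha : 1 ≤ a) (hb : 2 * a ≤ b) {R : ℕ} (hR : 1 ≤ R) :
    a * R ≤ b ^ R := by
  have h1 : (R : ℝ) ≤ 2 ^ R := by exact_mod_cast Nat.lt_two_pow_self.le
  calc a * R ≤ a ^ R * 2 ^ R := by gcongr; exact le_self_pow₀ ha (by omega)
    _ = (2 * a) ^ R := by rw [mul_pow, mul_comm]
    _ ≤ b ^ R := by gcongr

theorem exists_sep (L : PeriodPair) {m : ℕ} (w : Fin m → ℂ) (hw : ∀ k, w k ∉ L.lattice) :
    ∃ b : ℝ, ∀ k, ∀ l ∈ L.lattice, 1 ≤ ‖w k - l‖ * b := by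
  have h : ∀ k, ∃ b : ℝ, ∀ l ∈ L.lattice, 1 ≤ ‖w k - l‖ * b := by
    intro k
    have hp := (L.isClosed_lattice.notMem_iff_infDist_pos ⟨0, L.lattice.zero_mem⟩).1 (hw k)
    refine ⟨(infDist (w k) L.lattice)⁻¹, fun l hl => ?_⟩
    rw [← div_eq_mul_inv, one_le_div hp, ← dist_eq_norm]
    exact infDist_le_dist_of_mem hl
  choose b hb using h
  obtain ⟨B, hB⟩ := (finite_range b).bddAbove
  exact ⟨B, fun k l hl => (hb k l hl).trans (by gcongr; exact hB ⟨k, rfl⟩)⟩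

theorem growth (L : PeriodPair) {m : ℕ} (w : Fin m → ℂ) (hw : ∀ k, w k ∉ L.lattice) :
    ∃ E : ℝ, 1 ≤ E ∧ ∀ R : ℕ, 1 ≤ R → ∃ Q : ℂ → ℂ, (∀ z, AnalyticAt ℂ Q z) ∧
      (∀ t : ℂ, ‖t‖ ≤ R → Pole (fun z => Q z * L.weierstrassP z) t 0 ∧
        Pole (fun z => Q z * wzeta L z) t 0) ∧
      (∀ z, z ∉ L.lattice → ‖z‖ ≤ R + 1 → ‖Q z‖ ≤ E ^ R ^ 3 ∧
        ‖Q z * L.weierstrassP z‖ ≤ E ^ R ^ 3 ∧ ‖Q z * wzeta L z‖ ≤ E ^ R ^ 3) ∧
      ∀ k, 1 ≤ ‖Q (w k)‖ * E ^ R ^ 3 := by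
  classical
  obtain ⟨C, hC1, hC⟩ := exists_near L
  obtain ⟨c, hc0, hc⟩ := exists_coord L
  obtain ⟨b₀, hb₀⟩ := exists_sep L w hw
  obtain ⟨c₁, hc₁, hc₁'⟩ : ∃ c₁ : ℕ, 1 ≤ c₁ ∧ c * (2 + C) ≤ c₁ :=
    ⟨⌈c * (2 + C)⌉₊ + 1, by omega, by push_cast; linarith [Nat.le_ceil (c * (2 + C))]⟩
  set a : ℝ := 2 + c₁ * (‖L.ω₁‖ + ‖L.ω₂‖) with ha
  set a' : ℝ := C + C ^ 2 * (c₁ * (‖eta L L.ω₁‖ + ‖eta L L.ω₂‖)) with ha'
  have ha1 : 1 ≤ a := by
    have : 0 ≤ c₁ * (‖L.ω₁‖ + ‖L.ω₂‖) := by positivity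
    linarith
  have ha1' : C ≤ a' := le_add_of_nonneg_right (by positivity)
  obtain ⟨b, hb1, hb2, hb3⟩ : ∃ b : ℝ, 2 * a ≤ b ∧ 2 * a' ≤ b ∧ b₀ ≤ b :=
    ⟨max (max (2 * a) (2 * a')) b₀, by simp, by simp, by simp⟩
  have hb : 1 ≤ b := by linarith
  refine ⟨b ^ (18 * c₁ ^ 2 + 1), one_le_pow₀ hb, fun R hR => ?_⟩
  have hR' : (1 : ℝ) ≤ R := by exact_mod_cast hR
  set N : ℕ := c₁ * R with hN
  set X : Finset (ℤ × ℤ) := Finset.Icc (-(N : ℤ)) N ×ˢ Finset.Icc (-(N : ℤ)) N with hX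
  have hcard : X.card ≤ 9 * c₁ ^ 2 * R ^ 2 := by
    have h1 : (Finset.Icc (-(N : ℤ)) N).card = 2 * N + 1 := by
      rw [Int.card_Icc]; omega
    have h2 : 1 ≤ N := Nat.mul_pos hc₁ hR
    rw [hX, Finset.card_product, h1]
    calc (2 * N + 1) * (2 * N + 1) ≤ (3 * N) * (3 * N) := by gcongr <;> omega
      _ = _ := by rw [hN]; ring
  have hmem : ∀ l ∈ L.lattice, ‖l‖ ≤ R + 1 + C → ∃ p ∈ X, lp L p = l := by
    intro l hl hn
    obtain ⟨x, y, h⟩ := PeriodPair.mem_lattice.1 hl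
    have e : lp L (x, y) = l := h
    have h3 : c * ‖lp L (x, y)‖ ≤ N := by
      rw [e, hN]; push_cast
      calc c * ‖l‖ ≤ c * ((2 + C) * R) := by gcongr; nlinarith
        _ = c * (2 + C) * R := by ring
        _ ≤ c₁ * R := by gcongr
    have h1 : |x| ≤ N := by exact_mod_cast (hc (x, y)).1.trans h3
    have h2 : |y| ≤ N := by exact_mod_cast (hc (x, y)).2.trans h3
    exact ⟨(x, y), by simp [hX, abs_le.1 h1, abs_le.1 h2], e⟩
  have hlin : ∀ p ∈ X, ∀ x y : ℂ, ‖p.1 * x + p.2 * y‖ ≤ c₁ * (‖x‖ + ‖y‖) * R := by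
    intro p hp x y
    simp only [hX, Finset.mem_product, Finset.mem_Icc] at hp
    have h1 : |(p.1 : ℝ)| ≤ N := by exact_mod_cast abs_le.2 hp.1
    have h2 : |(p.2 : ℝ)| ≤ N := by exact_mod_cast abs_le.2 hp.2
    refine (norm_add_le _ _).trans ?_
    rw [norm_mul, norm_mul, Complex.norm_intCast, Complex.norm_intCast]
    calc _ ≤ N * ‖x‖ + N * ‖y‖ := by gcongr
      _ = _ := by rw [hN]; push_cast; ring
  have hup : ∀ Y ⊆ X, ∀ z : ℂ, ‖z‖ ≤ R + 1 →
      ‖∏ p ∈ Y, (z - lp L p) ^ 2‖ ≤ b ^ (18 * c₁ ^ 2 * R ^ 3) := by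
    intro Y hY z hz
    rw [norm_prod]
    calc _ ≤ ∏ p ∈ Y, (b ^ R) ^ 2 := by
          refine Finset.prod_le_prod (fun _ _ => norm_nonneg _) fun p hp => ?_
          rw [norm_pow]
          gcongr
          refine (norm_sub_le _ _).trans (le_trans ?_ (lin_le_pow ha1 hb1 hR))
          have := hlin p (hY hp) L.ω₁ L.ω₂
          rw [ha, lp]; nlinarith
      _ = b ^ (R * 2 * Y.card) := by rw [Finset.prod_const, ← pow_mul, ← pow_mul, mul_assoc]
      _ ≤ _ := by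
          refine pow_le_pow_right₀ hb ?_
          calc R * 2 * Y.card ≤ R * 2 * (9 * c₁ ^ 2 * R ^ 2) := by
                gcongr; exact (Finset.card_le_card hY).trans hcard
            _ = _ := by ring
  have hE : ∀ x y : ℝ, 0 ≤ y → x ≤ b ^ (18 * c₁ ^ 2 * R ^ 3) → y ≤ a' * R →
      x * y ≤ (b ^ (18 * c₁ ^ 2 + 1)) ^ R ^ 3 := by
    intro x y hy h1 h2
    rw [← pow_mul, add_mul, pow_add, one_mul]
    refine mul_le_mul h1 (h2.trans ((lin_le_pow (by linarith) hb2 hR).trans ?_)) hy (by positivity)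
    exact pow_le_pow_right₀ hb (le_self_pow₀ hR (by norm_num))
  have hCR : C ≤ a' * R := by nlinarith
  have han : ∀ (Y : Finset (ℤ × ℤ)) (z : ℂ), AnalyticAt ℂ (fun z => ∏ p ∈ Y, (z - lp L p) ^ 2) z :=
    fun Y z => Finset.analyticAt_fun_prod _ fun p _ => by fun_prop
  have hpole : ∀ f : ℂ → ℂ, (∀ t ∈ L.lattice, Pole f t 2) → (∀ t ∉ L.lattice, AnalyticAt ℂ f t) →
      ∀ t : ℂ, ‖t‖ ≤ R → Pole (fun z => (∏ p ∈ X, (z - lp L p) ^ 2) * f z) t 0 := by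
    intro f h1 h2 t ht
    by_cases hm : t ∈ L.lattice
    · obtain ⟨p, hp, e⟩ := hmem t hm (by linarith)
      obtain ⟨u, hu, h⟩ := h1 t hm
      refine ⟨fun z => (∏ p ∈ X.erase p, (z - lp L p) ^ 2) * u z, (han _ t).mul hu, ?_⟩
      filter_upwards [h] with z hz
      rw [← hz, ← Finset.prod_erase_mul _ _ hp, e]; ring
    · exact pole_of_analytic ((han _ t).mul (h2 t hm))
  refine ⟨fun z => ∏ p ∈ X, (z - lp L p) ^ 2, han X, fun t ht =>
    ⟨hpole _ (fun t => pole_wp L) (fun t => analyticAt_wp) t ht,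
      hpole _ (fun t => pole_wzeta) (fun t => analyticAt_wzeta) t ht⟩, fun z hz hn => ?_,
    fun k => ?_⟩
  · obtain ⟨l, hl, h1, h2⟩ := hC z
    obtain ⟨h3, h4⟩ := h2 hz
    obtain ⟨p, hp, e⟩ := hmem l hl (by
      have := norm_sub_le z (z - l)
      rw [sub_sub_cancel] at this
      linarith)
    have h5 := hup _ (Finset.erase_subset p X) z hn
    have hz' : z - l ∉ L.lattice := by
      rw [sub_eq_add_neg]; exact add_notMem hz (L.lattice.neg_mem hl)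
    refine ⟨?_, ?_, ?_⟩
    · simpa using hE _ 1 zero_le_one (hup X subset_rfl z hn) (by linarith)
    · simp only
      rw [← Finset.prod_erase_mul _ _ hp, e, mul_assoc, norm_mul]
      refine hE _ _ (norm_nonneg _) h5 ?_
      rw [← wp_add (z := z - l) hl, sub_add_cancel] at h3
      linarith
    · simp only
      rw [← Finset.prod_erase_mul _ _ hp, e, mul_assoc, norm_mul]
      refine hE _ _ (norm_nonneg _) h5 ?_
      have h6 := wzeta_add hz' hl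
      rw [sub_add_cancel] at h6
      have h7 : ‖eta L l‖ ≤ c₁ * (‖eta L L.ω₁‖ + ‖eta L L.ω₂‖) * R := by
        rw [← e, eta_lp]; exact hlin p hp _ _
      rw [h6, mul_add]
      refine (norm_add_le _ _).trans ?_
      rw [norm_mul ((z - l) ^ 2) (eta L l), norm_pow]
      calc _ ≤ C * R + C ^ 2 * (c₁ * (‖eta L L.ω₁‖ + ‖eta L L.ω₂‖) * R) := by
            gcongr; nlinarith
        _ = _ := by rw [ha']; ring
  · simp only
    rw [norm_prod]
    calc (1 : ℝ) ≤ ∏ p ∈ X, (‖(w k - lp L p) ^ 2‖ * b ^ 2) := by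
          refine Finset.one_le_prod fun p _ => ?_
          rw [norm_pow, ← mul_pow]
          exact one_le_pow₀ ((hb₀ k _ (lp_mem p)).trans (by gcongr))
      _ = (∏ p ∈ X, ‖(w k - lp L p) ^ 2‖) * b ^ (2 * X.card) := by
          rw [Finset.prod_mul_distrib, Finset.prod_const, ← pow_mul]
      _ ≤ _ := by
          rw [← pow_mul]
          refine mul_le_mul_of_nonneg_left (pow_le_pow_right₀ hb ?_)
            (Finset.prod_nonneg fun _ _ => norm_nonneg _)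
          calc 2 * X.card ≤ 2 * (9 * c₁ ^ 2 * R ^ 2) := by gcongr
            _ = 18 * c₁ ^ 2 * R ^ 2 := by ring
            _ ≤ _ := by
              gcongr
              · omega
              · omega

end Pool.Agent.Lib.MP_0c15f2_nt
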