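import Pool.Agent.Lib.MP_0c15f2_nt.Schwarz
import Pool.Agent.Lib.MP_0c15f2_nt.Comb

open Filter Topology Set Metric NumberField

namespace Pool.Agent.Lib.MP_0c15f2_nt

open MP_9177b7_ag.CM.Rat

variable {L : PeriodPair}

/-- generators of the differential ring -/
noncomputable def gens (L : PeriodPair) : Fin 5 → ℂ → ℂ :=
  ![L.weierstrassP, L.derivWeierstrassP, wzeta L, fun _ => L.g₂ / 2, 1]

theorem gens_der (L : PeriodPair) (i : Fin 5) : ∃ g, Comb (gens L) 2 7 g ∧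
    ∀ z ∈ (L.lattice : Set ℂ)ᶜ, HasDerivAt (gens L i) (g z) z := by
  have m : ∀ i j, Mon (gens L) 2 (gens L i * gens L j) := fun i j => (Mon.gen i).mul j
  fin_cases i
  · exact ⟨_, (m 1 4).comb.mono (by norm_num), fun z hz => by simpa [gens] using hasDerivAt_wp hz⟩
  · refine ⟨_, ((((((m 0 0).comb.add (m 0 0)).add (m 0 0)).add (m 0 0)).add (m 0 0)).add
      (m 0 0)).sub (m 3 4), fun z hz => hd_congr (hasDerivAt_wp' hz) (fun _ => rfl) ?_⟩
    simp [gens]; ring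
  · exact ⟨_, (m 0 4).comb.neg.mono (by norm_num), fun z hz => by
      simpa [gens] using hasDerivAt_wzeta hz⟩
  · exact ⟨0, Comb.zero _, fun z _ => hasDerivAt_const z _⟩
  · exact ⟨0, Comb.zero _, fun z _ => hasDerivAt_const z _⟩

/-- the monomials -/
noncomputable def mu (L : PeriodPair) {N : ℕ} (l : Fin N × Fin N) (z : ℂ) : ℂ :=
  L.weierstrassP z ^ (l.1 : ℕ) * wzeta L z ^ (l.2 : ℕ)

theorem mu_mon {N : ℕ} (l : Fin N × Fin N) : Mon (gens L) (2 * N) (mu L l) := by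
  have h := ((Mon.pow (φ := gens L) 0 l.1).mul' (Mon.pow 2 l.2)).mul'
    (Mon.pow 4 (2 * N - l.1 - l.2))
  rw [show l.1 + l.2 + (2 * N - l.1 - l.2) = 2 * N by omega] at h
  convert h using 1
  funext z; simp [gens, mu]

theorem mu_analytic {N : ℕ} (l : Fin N × Fin N) {z : ℂ} (hz : z ∉ L.lattice) :
    AnalyticAt ℂ (mu L l) z := by
  have := analyticAt_wp hz
  have := analyticAt_wzeta hz
  unfold mu; fun_prop

theorem pole_pow {f : ℂ → ℂ} {t : ℂ} (h : Pole f t 0) (n : ℕ) : Pole (fun z => f z ^ n) t 0 := by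
  obtain ⟨u, hu, h⟩ := h
  exact ⟨fun z => u z ^ n, hu.pow n, h.mono fun z hz => by simp [← hz]⟩

theorem pole_sum {ι : Type*} (s : Finset ι) {f : ι → ℂ → ℂ} {t : ℂ} (h : ∀ i, Pole (f i) t 0) :
    Pole (fun z => ∑ i ∈ s, f i z) t 0 := by
  choose u hu h using h
  refine ⟨fun z => ∑ i ∈ s, u i z, Finset.analyticAt_fun_sum _ fun i _ => hu i, ?_⟩
  filter_upwards [(eventually_all_finset s).2 fun i _ => h i] with z hz
  rw [Finset.mul_sum]
  exact Finset.sum_congr rfl hz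

theorem entry {K : Type*} [Field K] [NumberField K] {σ : K →+* ℂ} {d w : ℂ} {C : ℝ} (hC : 1 ≤ C)
    (hw : w ∉ L.lattice) (hv : ∀ i, ∃ γ : 𝓞 K, σ γ = d * gens L i w ∧ house (γ : K) ≤ C) {N : ℕ}
    (l : Fin N × Fin N) (t : ℕ) : ∃ γ : 𝓞 K, σ γ = d ^ (2 * N + t) * iteratedDeriv t (mu L l) w ∧
      ∀ s : ℕ, t ≤ s → 2 * N ≤ s → 1 ≤ s → house (γ : K) ≤ (14 * C ^ 2 * s) ^ s := by
  obtain ⟨g, hg, he⟩ := (mu_mon l).iter (isOpen_compl L) (gens_der L) t
  obtain ⟨γ, h1, h2⟩ := hg.val (by linarith) hv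
  refine ⟨γ, by rw [h1, he w hw], fun s a1 a2 a3 => h2.trans ?_⟩
  have b1 : (7 * (2 * N + t)) ^ t ≤ (14 * s) ^ s :=
    (Nat.pow_le_pow_left (by omega) _).trans (Nat.pow_le_pow_right (by omega) a1)
  calc _ ≤ ((14 * s) ^ s : ℕ) * C ^ (2 * s) := by
        gcongr
        omega
    _ = _ := by push_cast; rw [pow_mul, ← mul_pow]; ring

theorem numeric {D m s N R : ℕ} {x y δ C E r : ℝ} (hm : m = 6 * (3 * D + 4)) (hs : 1 ≤ s)
    (hR : 1 ≤ R) (hRs : s < (R + 1) ^ 6) (hN : N * R ^ 3 ≤ 2 * m * s) (hNs : 2 * N ≤ s)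
    (hx : 0 ≤ x) (hδ : 1 ≤ δ) (hC : 1 ≤ C) (hE : 1 ≤ E) (hr : 1 ≤ r)
    (h1 : 1 ≤ δ ^ (2 * N + s) * x * ((C * s) ^ (3 * s)) ^ D)
    (h2 : 1 ≤ y * E ^ R ^ 3) (hy : 0 ≤ y)
    (h3 : x * y ^ (2 * N) * ((R : ℝ) / 2) ^ (m * s)
      ≤ s.factorial * ((C * s) ^ (2 * s) * (E ^ R ^ 3) ^ (2 * N)) * (2 * r) ^ (m * s)) :
    (s : ℝ) ≤ 4096 ^ (3 * D + 4) * (δ ^ 2 * C ^ (3 * D + 2) * E ^ (8 * m) * (2 * r) ^ m) := by
  have hs' : (1 : ℝ) ≤ s := by exact_mod_cast hs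
  have hR' : (1 : ℝ) ≤ R := by exact_mod_cast hR
  have a1 : (E ^ R ^ 3) ^ (2 * N) ≤ E ^ (4 * m * s) := by
    rw [← pow_mul]; exact pow_le_pow_right₀ hE (by nlinarith)
  have a2 : 1 ≤ y ^ (2 * N) * E ^ (4 * m * s) :=
    (one_le_pow₀ h2 (n := 2 * N)).trans (by rw [mul_pow]; gcongr)
  have a3 : (s : ℝ) / 4096 ≤ ((R : ℝ) / 2) ^ 6 := by
    have : (s : ℝ) ≤ (2 * R) ^ 6 := by
      have h : s ≤ (2 * R) ^ 6 := hRs.le.trans (Nat.pow_le_pow_left (by omega) _)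
      exact_mod_cast h
    rw [div_le_iff₀ (by norm_num)]
    calc _ ≤ _ := this
      _ = _ := by ring
  have a4 : ((s : ℝ) / 4096) ^ ((3 * D + 4) * s) ≤ ((R : ℝ) / 2) ^ (m * s) := by
    rw [hm, mul_assoc 6, pow_mul _ 6]; gcongr
  have a5 : (s.factorial : ℝ) ≤ s ^ s := by exact_mod_cast Nat.factorial_le_pow s
  have a6 : δ ^ (2 * N + s) ≤ δ ^ (2 * s) := pow_le_pow_right₀ hδ (by omega)
  have a7 : (((s : ℝ) / 4096) ^ (3 * D + 4)) ^ s
      ≤ (δ ^ 2 * C ^ (3 * D + 2) * E ^ (8 * m) * (2 * r) ^ m * s ^ (3 * D + 3)) ^ s := by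
    calc _ = 1 * 1 * ((s : ℝ) / 4096) ^ ((3 * D + 4) * s) := by rw [← pow_mul]; ring
      _ ≤ (δ ^ (2 * s) * x * ((C * s) ^ (3 * s)) ^ D) * (y ^ (2 * N) * E ^ (4 * m * s))
          * ((R : ℝ) / 2) ^ (m * s) := by
          gcongr
          exact h1.trans (by gcongr)
      _ = δ ^ (2 * s) * ((C * s) ^ (3 * s)) ^ D * E ^ (4 * m * s)
          * (x * y ^ (2 * N) * ((R : ℝ) / 2) ^ (m * s)) := by ring
      _ ≤ δ ^ (2 * s) * ((C * s) ^ (3 * s)) ^ D * E ^ (4 * m * s)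
          * (s ^ s * ((C * s) ^ (2 * s) * E ^ (4 * m * s)) * (2 * r) ^ (m * s)) := by
          refine mul_le_mul_of_nonneg_left (h3.trans ?_) (by positivity)
          gcongr
      _ = _ := by
          simp only [mul_pow, ← pow_mul]
          ring
  have a8 := le_of_pow_le_pow_left₀ (by omega) (by positivity) a7
  rw [div_pow, div_le_iff₀ (by positivity), pow_succ] at a8
  refine le_of_mul_le_mul_left (a8.trans (le_of_eq ?_)) (by positivity)
  ring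

theorem no_points {K : Type*} [Field K] [NumberField K] (σ : K →+* ℂ) (W : ℕ → ℂ)
    (hW : Function.Injective W) (hWl : ∀ k, W k ∉ L.lattice)
    (hval : ∀ k i, ∃ x : K, σ x = gens L i (W k)) : False := by
  classical
  set D := Module.finrank ℚ K with hD
  obtain ⟨m, hm⟩ : ∃ m, m = 6 * (3 * D + 4) := ⟨_, rfl⟩
  have hm1 : 1 ≤ m := by omega
  let w : Fin m → ℂ := fun k => W k
  have hw : Function.Injective w := fun a b h => Fin.ext (hW h)
  choose x hx using hval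
  obtain ⟨d, hd0, hd⟩ := exists_integral_multiples ℤ ℚ
    (Finset.univ.image fun p : Fin m × Fin 5 => x p.1 p.2)
  obtain ⟨C₀, hC₀⟩ := (finite_range fun p : Fin m × Fin 5 => house (d • x p.1 p.2)).bddAbove
  have hv : ∀ (k : Fin m) i, ∃ γ : 𝓞 K, σ γ = d * gens L i (w k) ∧ house (γ : K) ≤ max 1 C₀ :=
    fun k i => ⟨⟨d • x k i, hd _ (Finset.mem_image.2 ⟨(k, i), Finset.mem_univ _, rfl⟩)⟩, by
      change σ (d • x k i) = _
      rw [map_zsmul, hx, zsmul_eq_mul], (hC₀ ⟨(k, i), rfl⟩).trans (le_max_right _ _)⟩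
  obtain ⟨c, hc1, hc⟩ := siegel K
  obtain ⟨E, hE1, hE⟩ := growth L w fun k => hWl k
  obtain ⟨r₀, hr₀⟩ := (finite_range fun k => ‖w k‖).bddAbove
  obtain ⟨r, hr1, hr⟩ : ∃ r : ℕ, 1 ≤ r ∧ ∀ k, ‖w k‖ ≤ r := ⟨⌈r₀⌉₊ + 1, by omega, fun k => by
    push_cast; linarith [Nat.le_ceil r₀, hr₀ ⟨k, rfl⟩]⟩
  have hm' : (1 : ℝ) ≤ m := by exact_mod_cast hm1
  obtain ⟨C, hC1, hC2⟩ : ∃ C : ℝ, 14 * max 1 C₀ ^ 2 ≤ C ∧ 2 * m * c ≤ C :=
    ⟨max _ _, le_max_left _ _, le_max_right _ _⟩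
  have hC : 1 ≤ C := by nlinarith
  have hδ : (1 : ℝ) ≤ ‖(d : ℂ)‖ := by
    rw [Complex.norm_intCast]; exact_mod_cast Int.one_le_abs hd0
  obtain ⟨n, hn1, hn2, hn3⟩ : ∃ n : ℕ, 2 ≤ n ∧ (2 * r + 2) ^ 6 ≤ n ∧ 4096 ^ (3 * D + 4) *
      (‖(d : ℂ)‖ ^ 2 * C ^ (3 * D + 2) * E ^ (8 * m) * (2 * r) ^ m) < n := by
    obtain ⟨n, hn⟩ := exists_nat_gt (4096 ^ (3 * D + 4) *
      (‖(d : ℂ)‖ ^ 2 * C ^ (3 * D + 2) * E ^ (8 * m) * (2 * (r : ℝ)) ^ m))
    exact ⟨n + 2 + (2 * r + 2) ^ 6, by omega, by omega, hn.trans_le (by exact_mod_cast by omega)⟩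
  obtain ⟨N, hN⟩ : ∃ N, N = 2 * m * n := ⟨_, rfl⟩
  obtain ⟨T, hT⟩ : ∃ T, T = 2 * m * n ^ 2 := ⟨_, rfl⟩
  have hNT : 2 * N ≤ T := by rw [hN, hT]; nlinarith [Nat.zero_le (m * n)]
  have hnT : n ≤ T := by rw [hN] at hNT; nlinarith
  have hNN : N * N = 2 * (m * T) := by rw [hN, hT]; ring
  choose a ha ha' using fun (k : Fin m) (t : ℕ) (l : Fin N × Fin N) =>
    entry (le_max_left 1 C₀) (hWl k) (hv k) l t
  have haC : ∀ k t l (s : ℕ), t ≤ s → T ≤ s → house (a k t l : K) ≤ (C * s) ^ s :=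
    fun k t l s h1 h2 => (ha' k t l s h1 (by omega) (by omega)).trans (by gcongr)
  have hT' : (1 : ℝ) ≤ T := by exact_mod_cast (by omega : 1 ≤ T)
  obtain ⟨ξ, hξ0, hξ, hξ'⟩ := hc (Fin m × Fin T) (Fin N × Fin N) (fun p l => a p.1 p.2 l) (m * T)
    ((C * T) ^ T) (Nat.mul_pos hm1 (by omega)) (by simp) (by simp [hNN])
    (one_le_pow₀ (by nlinarith)) fun p l => haC _ _ _ _ p.2.2.le le_rfl
  let F : ℂ → ℂ := fun z => ∑ l, σ (ξ l) * mu L l z
  have hFa : ∀ z ∉ L.lattice, AnalyticAt ℂ F z := fun z hz =>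
    Finset.analyticAt_fun_sum _ fun l _ => analyticAt_const.mul (mu_analytic l hz)
  have hFd : ∀ (k : Fin m) t, σ (∑ l, a k t l * ξ l : 𝓞 K)
      = d ^ (2 * N + t) * iteratedDeriv t F (w k) := by
    intro k t
    rw [iteratedDeriv_fun_sum (f := fun l z => σ (ξ l) * mu L l z) fun l _ =>
      (analyticAt_const.mul (mu_analytic l (hWl k))).contDiffAt, Finset.mul_sum]
    push_cast
    rw [map_sum]
    refine Finset.sum_congr rfl fun l _ => ?_
    rw [map_mul, ha, iteratedDeriv_const_mul_field]; ring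
  have hd' : (d : ℂ) ≠ 0 := by exact_mod_cast hd0
  have hex : ∃ s, ∃ k : Fin m, iteratedDeriv s F (w k) ≠ 0 := by
    by_contra hcon
    push Not at hcon
    have h1 : analyticOrderAt F (w ⟨0, hm1⟩) = ⊤ := ENat.eq_top_iff_forall_ge.2 fun s =>
      (natCast_le_analyticOrderAt_iff_iteratedDeriv_eq_zero (hFa _ (hWl _))).2 fun i _ => hcon i _
    have h2 := indep (p := fun l => σ (ξ l)) (hWl _) (analyticOrderAt_eq_top.1 h1)
    refine hξ0 (funext fun l => ?_)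
    simpa using congrFun h2 l
  obtain ⟨k, hk⟩ := Nat.find_spec hex
  have hmin : ∀ t < Nat.find hex, ∀ k, iteratedDeriv t F (w k) = 0 := fun t ht k => by
    by_contra h; exact Nat.find_min hex ht ⟨k, h⟩
  generalize Nat.find hex = s at hk hmin
  have hTs : T ≤ s := by
    by_contra hlt
    have h1 := congrFun hξ (k, ⟨s, not_le.1 hlt⟩)
    have h2 := hFd k s
    rw [show (∑ l, a k s l * ξ l : 𝓞 K) = 0 from h1] at h2
    exact mul_ne_zero (pow_ne_zero _ hd') hk (h2.symm.trans (by simp))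
  have hs' : (1 : ℝ) ≤ s := by exact_mod_cast (by omega : 1 ≤ s)
  have hTs' : (T : ℝ) ≤ s := by exact_mod_cast hTs
  have hCs : 1 ≤ C * s := by nlinarith
  have hsum : ∀ (g : Fin N × Fin N → ℝ) (Y : ℝ), 0 ≤ Y → (∀ l, g l ≤ house (ξ l : K) * Y) →
      ∑ l, g l ≤ (C * s) ^ (2 * s) * Y := by
    intro g Y hY h
    have b1 : ∀ l, house (ξ l : K) ≤ c * (2 * m * s) * (C * s) ^ s := fun l => (hξ' l).trans (by
      push_cast
      rw [mul_assoc c, ← mul_assoc 2]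
      gcongr
      exact (pow_le_pow_left₀ (by positivity) (by gcongr) _).trans (pow_le_pow_right₀ hCs hTs))
    have b2 : ((N * N : ℕ) : ℝ) ≤ 2 * m * s := by rw [hNN]; push_cast; rw [← mul_assoc]; gcongr
    have b3 : 2 * m * s * (c * (2 * m * s)) ≤ (C * s) ^ s := by
      refine le_trans ?_ (pow_le_pow_right₀ hCs (by omega : 2 ≤ s))
      calc _ = (2 * m * 1 * s) * (2 * m * c * s) := by ring
        _ ≤ (2 * m * c * s) * (2 * m * c * s) := by gcongr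
        _ ≤ (C * s) * (C * s) := by gcongr
        _ = _ := by ring
    calc _ ≤ ∑ l : Fin N × Fin N, c * (2 * m * s) * (C * s) ^ s * Y :=
          Finset.sum_le_sum fun l _ => (h l).trans (by gcongr; exact b1 l)
      _ = ((N * N : ℕ) : ℝ) * (c * (2 * m * s)) * (C * s) ^ s * Y := by simp; ring
      _ ≤ (C * s) ^ s * (C * s) ^ s * Y := by
          gcongr; exact le_trans (by gcongr) b3
      _ = _ := by ring
  have hγ0 : (∑ l, a k s l * ξ l : 𝓞 K) ≠ 0 := fun h => by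
    have h2 := hFd k s
    rw [h] at h2
    exact mul_ne_zero (pow_ne_zero _ hd') hk (h2.symm.trans (by simp))
  have hγ : house ((∑ l, a k s l * ξ l : 𝓞 K) : K) ≤ (C * s) ^ (3 * s) := by
    push_cast
    refine (house_sum_le_sum_house _ _).trans ((hsum _ ((C * s) ^ s) (by positivity) fun l => ?_).trans
      (le_of_eq (by ring)))
    rw [mul_comm (house _)]
    exact (house_mul_le _ _).trans (by gcongr; exacts [house_nonneg _, haC _ _ _ _ le_rfl hTs])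
  have h1 := liouville σ hγ0 (one_le_pow₀ hCs) hγ
  rw [hFd, norm_mul, norm_pow] at h1
  have hRex : ∃ R, s < (R + 1) ^ 6 := ⟨s, lt_of_lt_of_le (Nat.lt_succ_self s)
    (Nat.le_self_pow (by norm_num) _)⟩
  have hR1 := Nat.find_spec hRex
  have hR2 : 2 * r + 2 ≤ Nat.find hRex := by
    by_contra h
    have := Nat.pow_le_pow_left (show Nat.find hRex + 1 ≤ 2 * r + 2 by omega) 6
    omega
  have hR3 : Nat.find hRex ^ 6 ≤ s := by
    have := Nat.find_min hRex (m := Nat.find hRex - 1) (by omega)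
    rw [show Nat.find hRex - 1 + 1 = Nat.find hRex by omega] at this
    omega
  generalize Nat.find hRex = R at hR1 hR2 hR3
  obtain ⟨Q, hQa, hQp, hQb, hQw⟩ := hE R (by omega)
  have hsplit : ∀ z, F z * Q z ^ (2 * N) = ∑ l, σ (ξ l) * ((Q z * L.weierstrassP z) ^ (l.1 : ℕ)
      * (Q z * wzeta L z) ^ (l.2 : ℕ) * Q z ^ (2 * N - l.1 - l.2)) := by
    intro z
    rw [Finset.sum_mul]
    refine Finset.sum_congr rfl fun l _ => ?_
    conv_lhs => rw [show 2 * N = l.1 + l.2 + (2 * N - l.1 - l.2) by omega]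
    rw [mu]; ring
  have h3 := schwarz (L := L) (F := F) (q := fun z => Q z ^ (2 * N)) (s := s) hw (r := r) (R := R)
    (B := (C * s) ^ (2 * s) * (E ^ R ^ 3) ^ (2 * N)) (by exact_mod_cast hr1) hr
    (by exact_mod_cast hR2) (fun z => (hQa z).pow _)
    (fun k => (natCast_le_analyticOrderAt (hFa _ (hWl _))).1
      ((natCast_le_analyticOrderAt_iff_iteratedDeriv_eq_zero (hFa _ (hWl _))).2
        fun i hi => hmin i hi k))
    (fun t ht => by
      simp only [hsplit]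
      exact pole_sum _ fun l => (pole_of_analytic analyticAt_const).mul
        (((pole_pow (hQp t ht).1 _).mul (pole_pow (hQp t ht).2 _)).mul
          (pole_of_analytic ((hQa t).pow _))))
    (fun z hz hn => by
      rw [hsplit]
      refine (norm_sum_le _ _).trans (hsum _ _ (by positivity) fun l => ?_)
      obtain ⟨b1, b2, b3⟩ := hQb z hz hn
      rw [norm_mul, norm_mul, norm_mul, norm_pow, norm_pow, norm_pow]
      conv_rhs => rw [show 2 * N = l.1 + l.2 + (2 * N - l.1 - l.2) by omega, pow_add, pow_add]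
      gcongr
      · exact house_nonneg _
      · exact norm_embedding_le_house _ σ) k
  rw [norm_pow] at h3
  have hNR : N * R ^ 3 ≤ 2 * m * s := by
    refine Nat.mul_self_le_mul_self_iff.1 ?_
    calc _ = N * N * R ^ 6 := by ring
      _ ≤ 2 * (m * s) * s := by rw [hNN]; gcongr
      _ = (2 * 1 * s) * (m * s) := by ring
      _ ≤ (2 * m * s) * (2 * m * s) := by gcongr; omega
  have := numeric hm (by omega) (by omega) hR1 hNR (by omega) (norm_nonneg _) hδ hC hE1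
    (by exact_mod_cast hr1) h1 (hQw k) (norm_nonneg _) h3
  have h4 : (n : ℝ) ≤ s := by exact_mod_cast hnT.trans hTs
  linarith

end Pool.Agent.Lib.MP_0c15f2_nt
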