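import Pool.Agent.Lib.MP_0c15f2_nt.SL
import Pool.Agent.Lib.MP_0c15f2_nt.Count

open Filter Topology Set

namespace Pool.Agent.Lib.MP_0c15f2_nt

variable {L : PeriodPair}

/-- all values in the field `K` -/
def InK (L : PeriodPair) (K : IntermediateField ℚ ℂ) (w : ℂ) : Prop :=
  w ∉ L.lattice ∧ L.weierstrassP w ∈ K ∧ L.derivWeierstrassP w ∈ K ∧ wzeta L w ∈ K

theorem InK.add {K : IntermediateField ℚ ℂ} {s t : ℂ} (hs : InK L K s) (ht : InK L K t)
    (h1 : s + t ∉ L.lattice) (h2 : s - t ∉ L.lattice) : InK L K (s + t) := by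
  have hne : L.weierstrassP s - L.weierstrassP t ≠ 0 := sub_ne_zero.2 fun h =>
    (wp_inj hs.1 ht.1 h).elim h2 h1
  have two : (2 : ℂ) ∈ K := by exact_mod_cast K.natCast_mem 2
  have a0 := fs hs.1 ht.1 h1
  have a1 := fs_one hs.1 ht.1 h1
  have a2 := fs_deriv hs.1 ht.1 h1
  have hl : wzeta L (s + t) - wzeta L s - wzeta L t ∈ K := by
    have : wzeta L (s + t) - wzeta L s - wzeta L t = (L.derivWeierstrassP s - L.derivWeierstrassP t)
        / (2 * (L.weierstrassP s - L.weierstrassP t)) := by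
      rw [← a1]; field_simp
    rw [this]
    exact K.div_mem (K.sub_mem hs.2.2.1 ht.2.2.1) (K.mul_mem two (K.sub_mem hs.2.1 ht.2.1))
  have hp : L.weierstrassP (s + t) ∈ K := by
    have := K.sub_mem (K.sub_mem (K.mul_mem hl hl) hs.2.1) ht.2.1
    rw [← sq, a0] at this
    convert this using 1; ring
  refine ⟨h1, hp, ?_, ?_⟩
  · have := K.sub_mem (K.mul_mem (K.mul_mem two hl) (K.sub_mem hs.2.1 hp)) hs.2.2.1
    rw [a2] at this
    convert this using 1; ring
  · have := K.add_mem (K.add_mem hl ht.2.2.2) hs.2.2.2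
    convert this using 1; ring

theorem AlgPt.wp' (h2 : IsAlgebraic ℚ L.g₂) (h3 : IsAlgebraic ℚ L.g₃) {u : ℂ} (hu : AlgPt L u) :
    IsAlgebraic ℚ (L.derivWeierstrassP u) := alg_of_der fun δ => by
  rw [der_wp' h2 h3 δ hu.1, la, der_alg δ hu.2.1]; simp

theorem exists_field (h2 : IsAlgebraic ℚ L.g₂) (h3 : IsAlgebraic ℚ L.g₃) {u v : ℂ}
    (hu : AlgPt L u) (hv : AlgPt L v) : ∃ K : IntermediateField ℚ ℂ, FiniteDimensional ℚ K ∧
      L.g₂ ∈ K ∧ InK L K u ∧ InK L K v := by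
  let S : Set ℂ := {L.g₂, L.weierstrassP u, L.derivWeierstrassP u, wzeta L u, L.weierstrassP v,
    L.derivWeierstrassP v, wzeta L v}
  have hS : ∀ x ∈ S, x ∈ IntermediateField.adjoin ℚ S := IntermediateField.subset_adjoin ℚ S
  refine ⟨IntermediateField.adjoin ℚ S, IntermediateField.finiteDimensional_adjoin ?_,
    hS _ (by simp [S]), ⟨hu.1, hS _ (by simp [S]), hS _ (by simp [S]), hS _ (by simp [S])⟩,
    hv.1, hS _ (by simp [S]), hS _ (by simp [S]), hS _ (by simp [S])⟩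
  rintro x (rfl | rfl | rfl | rfl | rfl | rfl | rfl)
  exacts [h2.isIntegral, hu.2.1.isIntegral, (hu.wp' h2 h3).isIntegral, hu.2.2.isIntegral,
    hv.2.1.isIntegral, (hv.wp' h2 h3).isIntegral, hv.2.2.isIntegral]

theorem no_inK {K : IntermediateField ℚ ℂ} (hK : FiniteDimensional ℚ K) (hg : L.g₂ ∈ K)
    (W : ℕ → ℂ) (hW : Function.Injective W) (h : ∀ k, InK L K (W k)) : False := by
  have : NumberField K := { to_finiteDimensional := hK }
  have two : (2 : ℂ) ∈ K := by exact_mod_cast K.natCast_mem 2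
  refine no_points (L := L) (K := K) K.toSubfield.subtype W hW (fun k => (h k).1) fun k i => ?_
  fin_cases i
  exacts [⟨⟨_, (h k).2.1⟩, rfl⟩, ⟨⟨_, (h k).2.2.1⟩, rfl⟩, ⟨⟨_, (h k).2.2.2⟩, rfl⟩,
    ⟨⟨_, K.div_mem hg two⟩, rfl⟩, ⟨⟨_, K.one_mem⟩, rfl⟩]

theorem schneider (h2 : IsAlgebraic ℚ L.g₂) (h3 : IsAlgebraic ℚ L.g₃) (u : ℂ) : ¬ AlgPt L u := by
  intro hu
  have hu0 : u ≠ 0 := fun h => hu.1 (h ▸ L.lattice.zero_mem)
  have hsm : ∀ n : ℕ, (n : ℂ) * u ∉ L.lattice → AlgPt L (n * u) := fun n hn => by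
    have e : (n : ℚ) • u = n * u := by rw [Rat.smul_def]; push_cast; rfl
    have := hu.smul h2 h3 n (by rwa [e])
    rwa [e] at this
  by_cases ht : ∃ n : ℕ, ((n : ℂ) + 1) * u ∈ L.lattice
  · obtain ⟨n, hn⟩ := ht
    set l := ((n : ℂ) + 1) * u with hl
    have hl0 : l ≠ 0 := mul_ne_zero (by exact_mod_cast Nat.succ_ne_zero n) hu0
    have hv := hsm (n + 2) (by
      convert add_notMem hu.1 hn using 2; rw [hl]; push_cast; ring)
    rw [show ((n + 2 : ℕ) : ℂ) * u = u + l by rw [hl]; push_cast; ring] at hv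
    obtain ⟨K, hK, hg, k1, k2⟩ := exists_field h2 h3 hu hv
    have he : eta L l ∈ K := by
      have := K.sub_mem k2.2.2.2 k1.2.2.2
      rwa [wzeta_add hu.1 hn, add_sub_cancel_left] at this
    refine no_inK hK hg (fun k => u + k * l) (fun a b hab => by simpa [hl0] using hab) fun k => ?_
    induction k with
    | zero => simpa using k1
    | succ k ih =>
      push_cast
      rw [add_mul, one_mul, ← add_assoc]
      exact ⟨add_notMem ih.1 hn, by rw [wp_add hn]; exact ih.2.1, by rw [wp'_add hn]; exact ih.2.2.1,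
        by rw [wzeta_add ih.1 hn]; exact K.add_mem ih.2.2.2 he⟩
  · push Not at ht
    obtain ⟨K, hK, hg, k1, k2⟩ := exists_field h2 h3 hu (hsm 2 (by
      convert ht 1 using 2; norm_num))
    refine no_inK hK hg (fun k => ((k : ℂ) + 2) * u) (fun a b hab => by simpa [hu0] using hab)
      fun k => ?_
    induction k with
    | zero => simpa using k2
    | succ k ih =>
      have := ih.add k1 (by convert ht (k + 2) using 2; push_cast; ring)
        (by convert ht k using 2; ring)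
      convert this using 1
      push_cast; ring

theorem main (r : ℕ) : ∃ M : ℕ, ∀ L : PeriodPair, IsAlgebraic ℚ L.g₂ → IsAlgebraic ℚ L.g₃ →
    ∀ U : Submodule ℚ ℂ, FiniteDimensional ℚ U → Module.finrank ℚ U ≤ r →
    (Exc L U).Finite ∧ (Exc L U).ncard ≤ M := by
  obtain ⟨M, hM⟩ := count r
  exact ⟨M, fun L h2 h3 => hM L h2 h3 (schneider h2 h3)⟩

end Pool.Agent.Lib.MP_0c15f2_nt
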