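import Pool.Agent.Lib.MP_0c15f2_nt.Growth

open Filter Topology Set Metric

namespace Pool.Agent.Lib.MP_0c15f2_nt

open MP_9177b7_ag.CM.Rat

variable {L : PeriodPair}

theorem maxp {G : ℂ → ℂ} {R B : ℝ} (hR : 0 < R) (hP : ∀ t : ℂ, ‖t‖ ≤ R → Pole G t 0)
    (hB : ∀ t : ℂ, ‖t‖ = R → ∀ᶠ z in 𝓝[≠] t, ‖G z‖ ≤ B) {t : ℂ} (ht : ‖t‖ ≤ R) {g : ℂ → ℂ}
    (hg : ContinuousAt g t) (h : ∀ᶠ z in 𝓝[≠] t, G z = g z) : ‖g t‖ ≤ B := by
  rw [← lim_val hg h]
  refine Complex.norm_le_of_forall_mem_frontier_norm_le (f := fun z => limUnder (𝓝[≠] z) G)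
    (U := ball 0 R) isBounded_ball (DifferentiableOn.diffContOnCl fun z hz => ?_) (fun z hz => ?_) ?_
  · rw [closure_ball _ hR.ne'] at hz
    exact (lim_analytic (hP z (by simpa using hz))).differentiableAt.differentiableWithinAt
  · rw [frontier_ball _ hR.ne'] at hz
    have hz' : ‖z‖ = R := by simpa using hz
    obtain ⟨u, hu, h1⟩ := hP z hz'.le
    have h2 : ∀ᶠ w in 𝓝[≠] z, G w = u w := h1.mono fun w hw => by simpa using hw
    rw [lim_val hu.continuousAt h2]
    refine le_of_tendsto (hu.continuousAt.norm.tendsto.mono_left (nhdsWithin_le_nhds (s := {z}ᶜ))) ?_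
    filter_upwards [h2, hB z hz'] with w a b
    rwa [← a]
  · rw [closure_ball _ hR.ne']; simpa using ht

theorem taylor_coeff {w : ℂ} (s : ℕ) : ∀ {F u : ℂ → ℂ}, AnalyticAt ℂ u w →
    (∀ᶠ z in 𝓝 w, F z = (z - w) ^ s * u z) → iteratedDeriv s F w = s.factorial * u w := by
  induction s with
  | zero => intro F u _ h; simpa using h.self_of_nhds
  | succ s ih =>
    intro F u hu h
    rw [iteratedDeriv_succ', ih (u := fun z => (s + 1) * u z + (z - w) * deriv u z)
      (by have := hu.deriv; fun_prop)]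
    · simp [Nat.factorial_succ]; ring
    · filter_upwards [h.eventually_nhds, hu.eventually_analyticAt] with z hz ha
      rw [EventuallyEq.deriv_eq hz]
      have h1 := (((hasDerivAt_id z).sub_const w).pow (s + 1)).mul ha.differentiableAt.hasDerivAt
      refine (hd_congr h1 (fun _ => rfl) ?_).deriv
      simp; ring

theorem schwarz {m s : ℕ} {F q : ℂ → ℂ} {w : Fin m → ℂ} (hw : Function.Injective w) {r R B : ℝ}
    (hr : 1 ≤ r) (hwr : ∀ k, ‖w k‖ ≤ r) (hR : 2 * r + 2 ≤ R) (hq : ∀ z, AnalyticAt ℂ q z)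
    (hF : ∀ k, ∃ u, AnalyticAt ℂ u (w k) ∧ ∀ᶠ z in 𝓝 (w k), F z = (z - w k) ^ s • u z)
    (hP : ∀ t : ℂ, ‖t‖ ≤ R → Pole (fun z => F z * q z) t 0)
    (hB : ∀ z, z ∉ L.lattice → ‖z‖ ≤ R + 1 → ‖F z * q z‖ ≤ B) (k : Fin m) :
    ‖iteratedDeriv s F (w k)‖ * ‖q (w k)‖ * (R / 2) ^ (m * s)
      ≤ s.factorial * B * (2 * r) ^ (m * s) := by
  classical
  have hR0 : 0 < R := by linarith
  have han : ∀ (Y : Finset (Fin m)) (t : ℂ), (∀ j ∈ Y, t ≠ w j) →
      AnalyticAt ℂ (fun z => (∏ j ∈ Y, (z - w j) ^ s)⁻¹) t := fun Y t h =>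
    (Finset.analyticAt_fun_prod _ fun p _ => by fun_prop).inv
      (Finset.prod_ne_zero_iff.2 fun j hj => pow_ne_zero _ (sub_ne_zero.2 (h j hj)))
  have hne : ∀ k, ∀ j ∈ Finset.univ.erase k, w k ≠ w j := fun k j hj h =>
    (Finset.mem_erase.1 hj).1 (hw h).symm
  choose u hu hFu using hF
  have hloc : ∀ k, ∀ᶠ z in 𝓝[≠] (w k), F z * q z * (∏ j, (z - w j) ^ s)⁻¹
      = u k z * q z * (∏ j ∈ Finset.univ.erase k, (z - w j) ^ s)⁻¹ := by
    intro k
    filter_upwards [self_mem_nhdsWithin, mem_nhdsWithin_of_mem_nhds (hFu k)] with z h1 h2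
    have h0 : (z - w k) ^ s ≠ 0 := pow_ne_zero _ (sub_ne_zero.2 h1)
    rw [h2, ← Finset.prod_erase_mul _ _ (Finset.mem_univ k), smul_eq_mul]
    field_simp
  have key := maxp (G := fun z => F z * q z * (∏ j, (z - w j) ^ s)⁻¹) (B := B / (R / 2) ^ (m * s))
    hR0 (fun t ht => ?_) (fun t ht => ?_) ((hwr k).trans (by linarith))
    (((hu k).mul (hq _)).mul (han _ _ (hne k))).continuousAt (hloc k)
  · rw [taylor_coeff s (hu k) (hFu k), norm_mul, Complex.norm_natCast]
    have h1 : ‖∏ j ∈ Finset.univ.erase k, (w k - w j) ^ s‖ ≤ (2 * r) ^ (m * s) := by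
      rw [norm_prod]
      calc _ ≤ ∏ j ∈ Finset.univ.erase k, (2 * r) ^ s := by
            refine Finset.prod_le_prod (fun _ _ => norm_nonneg _) fun j _ => ?_
            rw [norm_pow]
            gcongr
            exact (norm_sub_le _ _).trans (by linarith [hwr k, hwr j])
        _ = (2 * r) ^ (s * (Finset.univ.erase k).card) := by rw [Finset.prod_const, ← pow_mul]
        _ ≤ _ := by
            refine pow_le_pow_right₀ (by linarith) ?_
            rw [mul_comm]
            gcongr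
            simp
    have h2 : 0 < ‖∏ j ∈ Finset.univ.erase k, (w k - w j) ^ s‖ := norm_pos_iff.2
      (Finset.prod_ne_zero_iff.2 fun j hj => pow_ne_zero _ (sub_ne_zero.2 (hne k j hj)))
    simp only [Pi.mul_apply] at key
    rw [norm_mul, norm_mul, norm_inv, ← div_eq_mul_inv,
      div_le_div_iff₀ h2 (by positivity)] at key
    have hB0 : 0 ≤ B := by
      by_contra hc
      have := mul_neg_of_neg_of_pos (not_le.1 hc) h2
      have h3 : 0 ≤ ‖u k (w k)‖ * ‖q (w k)‖ * (R / 2) ^ (m * s) := by positivity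
      linarith
    calc _ = s.factorial * (‖u k (w k)‖ * ‖q (w k)‖ * (R / 2) ^ (m * s)) := by ring
      _ ≤ s.factorial * (B * (2 * r) ^ (m * s)) := by
          exact mul_le_mul_of_nonneg_left (key.trans (by gcongr)) (by positivity)
      _ = _ := by ring
  · by_cases h : ∃ k, t = w k
    · obtain ⟨k, rfl⟩ := h
      exact ⟨_, ((hu k).mul (hq _)).mul (han _ _ (hne k)), (hloc k).mono fun z hz => by simpa using hz⟩
    · push Not at h
      exact (hP t ht).mul (pole_of_analytic (han _ t fun j _ => h j))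
  · have h1 : ∀ᶠ z in 𝓝 t, dist z t < 1 := ball_mem_nhds t one_pos
    filter_upwards [ev_notMem L t, mem_nhdsWithin_of_mem_nhds h1] with z hz h2
    rw [dist_eq_norm] at h2
    have h3 := abs_norm_sub_norm_le z t
    rw [abs_le] at h3
    have h4 := hB z hz (by linarith [h3.2])
    rw [norm_mul, norm_inv, ← div_eq_mul_inv]
    refine div_le_div₀ ((norm_nonneg _).trans h4) h4 (by positivity) ?_
    rw [norm_prod, mul_comm m s, pow_mul]
    calc _ = ∏ j : Fin m, (R / 2) ^ s := by simp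
      _ ≤ _ := by
        refine Finset.prod_le_prod (fun _ _ => by positivity) fun j _ => ?_
        rw [norm_pow]
        gcongr
        linarith [norm_sub_norm_le z (w j), hwr j, h3.1]

theorem poly_coeff {n : ℕ} {c : Fin n → ℂ} (h : {x : ℂ | ∑ i, c i * x ^ (i : ℕ) = 0}.Infinite) :
    c = 0 := by
  have h1 : (∑ i : Fin n, Polynomial.monomial (i : ℕ) (c i) : Polynomial ℂ) = 0 :=
    Polynomial.eq_zero_of_infinite_isRoot _ (by
      simpa [Polynomial.IsRoot, Polynomial.eval_finsetSum] using h)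
  funext j
  have h2 := congrArg (fun p => Polynomial.coeff p j) h1
  simpa [Polynomial.finsetSum_coeff, Polynomial.coeff_monomial, Fin.val_inj] using h2

theorem indep {n : ℕ} {p : Fin n × Fin n → ℂ} {w : ℂ} (hw : w ∉ L.lattice)
    (h : ∀ᶠ z in 𝓝 w, ∑ l, p l * (L.weierstrassP z ^ (l.1 : ℕ) * wzeta L z ^ (l.2 : ℕ)) = 0) :
    p = 0 := by
  have han : AnalyticOnNhd ℂ
      (fun z => ∑ l, p l * (L.weierstrassP z ^ (l.1 : ℕ) * wzeta L z ^ (l.2 : ℕ)))
      (L.lattice : Set ℂ)ᶜ := fun z hz => Finset.analyticAt_fun_sum _ fun l _ => by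
    have := analyticAt_wp hz
    have := analyticAt_wzeta hz
    fun_prop
  have h0 := han.eqOn_zero_of_preconnected_of_eventuallyEq_zero (preconn (countable_lattice L)) hw h
  obtain ⟨l, hl, hl0⟩ := eta_ne L
  have h1 : ∀ z ∉ L.lattice, ∀ j, ∑ i, p (i, j) * L.weierstrassP z ^ (i : ℕ) = 0 := by
    intro z hz
    have hN : ∀ N : ℕ, z + N * l ∉ L.lattice ∧ L.weierstrassP (z + N * l) = L.weierstrassP z ∧
        wzeta L (z + N * l) = wzeta L z + N * eta L l := by
      intro N
      induction N with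
      | zero => simpa using hz
      | succ N ih =>
        push_cast
        rw [add_mul, one_mul, ← add_assoc]
        exact ⟨add_notMem ih.1 hl, by rw [wp_add hl, ih.2.1],
          by rw [wzeta_add ih.1 hl, ih.2.2]; ring⟩
    have := poly_coeff (c := fun j => ∑ i, p (i, j) * L.weierstrassP z ^ (i : ℕ))
      (infinite_of_injective_forall_mem (f := fun N : ℕ => wzeta L z + N * eta L l)
        (fun a b hab => by simpa [hl0] using hab) fun N => by
          have h2 := h0 (hN N).1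
          simp only [Pi.zero_apply, (hN N).2.1, (hN N).2.2] at h2
          rw [Fintype.sum_prod_type_right] at h2
          simp only [mem_ofPred_eq, Finset.sum_mul, mul_assoc]
          exact h2)
    exact congrFun this
  funext ⟨i, j⟩
  refine congrFun (poly_coeff (c := fun i => p (i, j)) fun hfin => ?_) i
  have h2 : ∀ᶠ z in 𝓝[≠] w, ∀ c ∈ {x : ℂ | ∑ i, p (i, j) * x ^ (i : ℕ) = 0},
      L.weierstrassP z ≠ c := (eventually_all_finite hfin).2 fun c _ => ev_wp_ne hw c
  obtain ⟨z, h3, h4⟩ := (h2.and (ev_notMem L w)).exists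
  exact h3 _ (h1 z h4 j) rfl

end Pool.Agent.Lib.MP_0c15f2_nt
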