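import Pool.Agent.Lib.MP_0c15f2_nt.Defs
import Pool.Agent.Lib.MP_9177b7_ag.CM.Rat

open Filter Topology Set
open Pool.Agent.Lib.MP_9177b7_ag.CM.Rat

namespace Pool.Agent.Lib.MP_0c15f2_nt

theorem hd_congr {f g : ℂ → ℂ} {a b z : ℂ} (h : HasDerivAt f a z) (hf : ∀ w, g w = f w)
    (ha : b = a) : HasDerivAt g b z := by
  rw [ha, funext hf]; exact h

variable (L : PeriodPair)

/-- zeta without the term `1 / z` -/
noncomputable def wzE (z : ℂ) : ℂ :=
  ∑' l : L.lattice, if (l : ℂ) = 0 then 0 else (1 / (z - l) + 1 / (l : ℂ) + z / (l : ℂ) ^ 2)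

theorem zeta_bound (r : ℝ) (hr : 0 < r) (s : ℂ) (hs : ‖s‖ < r) (l : ℂ) (h : 2 * r ≤ ‖l‖) :
    ‖1 / (s - l) + 1 / l + s / l ^ 2‖ ≤ 2 * r ^ 2 * ‖l‖ ^ (-3 : ℝ) := by
  have hl : 0 < ‖l‖ := by linarith
  have hl0 : l ≠ 0 := norm_pos_iff.1 hl
  have h1 : ‖l‖ / 2 ≤ ‖s - l‖ := by
    have := norm_sub_norm_le l s
    rw [norm_sub_rev] at this
    linarith
  have h2 : s - l ≠ 0 := norm_pos_iff.1 (by linarith)
  have h3 : 1 / (s - l) + 1 / l + s / l ^ 2 = s ^ 2 / (l ^ 2 * (s - l)) := by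
    field_simp; ring
  rw [h3, norm_div, norm_mul, norm_pow, norm_pow, Real.rpow_neg hl.le,
    show (3 : ℝ) = (3 : ℕ) by norm_num, Real.rpow_natCast, div_le_iff₀ (by positivity)]
  have h4 : ‖s‖ ^ 2 ≤ r ^ 2 := by gcongr
  calc ‖s‖ ^ 2 ≤ r ^ 2 := h4
    _ = 2 * r ^ 2 * (‖l‖ ^ 3)⁻¹ * (‖l‖ ^ 2 * (‖l‖ / 2)) := by field_simp
    _ ≤ _ := by gcongr

theorem hasSumLU_wzE : HasSumLocallyUniformly
    (fun (l : L.lattice) (z : ℂ) =>
      if (l : ℂ) = 0 then 0 else (1 / (z - l) + 1 / (l : ℂ) + z / (l : ℂ) ^ 2)) (wzE L) := by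
  refine L.hasSumLocallyUniformly_aux (u := fun r l => 2 * r ^ 2 * ‖l‖ ^ (-3 : ℝ)) _
    (fun _ _ => (ZLattice.summable_norm_rpow _ _ (by simp; norm_num)).mul_left _) fun r hr =>
    Filter.eventually_atTop.mpr ⟨2 * r, ?_⟩
  rintro _ h s hs l rfl
  split_ifs
  · simp only [norm_zero]; positivity
  · exact zeta_bound r hr s hs l h

theorem hasDerivAt_term {z l : ℂ} (h : z - l ≠ 0) :
    HasDerivAt (fun z : ℂ => 1 / (z - l) + 1 / l + z / l ^ 2) (-(1 / (z - l) ^ 2 - 1 / l ^ 2)) z := by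
  have h1 := ((hasDerivAt_id z).sub_const l).inv h
  have h2 := (h1.add_const (1 / l)).add ((hasDerivAt_id z).div_const (l ^ 2))
  refine hd_congr h2 (fun w => by simp) ?_
  simp only [id]; ring

theorem hasDerivAt_wzE {z : ℂ} (hz : z ∈ ((L.lattice : Set ℂ) \ {0})ᶜ) :
    HasDerivAt (wzE L) (-(L.weierstrassPExcept 0 z)) z := by
  have hterm : ∀ (l : L.lattice), ∀ x ∈ ((L.lattice : Set ℂ) \ {0})ᶜ,
      HasDerivAt (fun z : ℂ =>
        if (l : ℂ) = 0 then 0 else (1 / (z - l) + 1 / (l : ℂ) + z / (l : ℂ) ^ 2))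
      (-(if (l : ℂ) = 0 then 0 else (1 / (x - l) ^ 2 - 1 / (l : ℂ) ^ 2))) x := by
    intro l x hx
    split_ifs with h
    · simpa using hasDerivAt_const x (0 : ℂ)
    · refine hasDerivAt_term fun e => hx ⟨?_, ?_⟩
      · rw [sub_eq_zero.1 e]; exact l.2
      · rw [sub_eq_zero.1 e]; exact h
  refine hasDerivAt_of_tendstoLocallyUniformlyOn (l := atTop) L.isOpen_compl_lattice_sdiff
    (f := fun (s : Finset L.lattice) (z : ℂ) => ∑ l ∈ s,
      if (l : ℂ) = 0 then 0 else (1 / (z - l) + 1 / (l : ℂ) + z / (l : ℂ) ^ 2))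
    (f' := fun (s : Finset L.lattice) (x : ℂ) => -∑ l ∈ s,
      if (l : ℂ) = 0 then 0 else (1 / (x - l) ^ 2 - 1 / (l : ℂ) ^ 2))
    (g' := fun x => -(L.weierstrassPExcept 0 x)) ?_ ?_ ?_ hz
  · exact (L.hasSumLocallyUniformly_weierstrassPExcept 0).tendstoLocallyUniformlyOn.neg
  · refine Eventually.of_forall fun s x hx => ?_
    rw [← Finset.sum_neg_distrib]
    exact HasDerivAt.fun_sum fun l _ => hterm l x hx
  · intro x _
    exact (hasSumLU_wzE L).hasSum

theorem wzeta_eq (z : ℂ) : wzeta L z = 1 / z + wzE L z := by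
  have h1 := ((hasSumLU_wzE L).hasSum (x := z))
  have h2 : HasSum (fun l : L.lattice => if l = 0 then 1 / z else 0) (1 / z) := hasSum_ite_eq _ _
  refine (HasSum.tsum_eq ?_)
  convert h2.add h1 using 2 with l
  by_cases h : l = 0
  · subst h; simp
  · have h' : (l : ℂ) ≠ 0 := fun e => h (Subtype.ext e)
    simp [h, h']

theorem wp_eq (z : ℂ) : L.weierstrassP z = 1 / z ^ 2 + L.weierstrassPExcept 0 z := by
  have := L.weierstrassPExcept_add 0 z
  simp only [ZeroMemClass.coe_zero, sub_zero] at this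
  rw [← this]; simp [add_comm]

theorem wzE_zero : wzE L 0 = 0 := by
  unfold wzE
  convert tsum_zero with l
  split_ifs
  · rfl
  · simp [one_div, inv_neg]

theorem analyticOnNhd_wzE : AnalyticOnNhd ℂ (wzE L) ((L.lattice : Set ℂ) \ {0})ᶜ :=
  DifferentiableOn.analyticOnNhd
    (fun _ hz => (hasDerivAt_wzE L hz).differentiableAt.differentiableWithinAt)
    L.isOpen_compl_lattice_sdiff

variable {L}

theorem hasDerivAt_wzeta {z : ℂ} (hz : z ∉ L.lattice) :
    HasDerivAt (wzeta L) (-(L.weierstrassP z)) z := by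
  have hz0 : z ≠ 0 := fun e => hz (e ▸ L.lattice.zero_mem)
  have h1 := ((hasDerivAt_id z).inv hz0).add (hasDerivAt_wzE L (z := z) fun h => hz h.1)
  refine hd_congr h1 (fun w => by simp [wzeta_eq]) ?_
  rw [wp_eq]; simp only [id]; ring

theorem isOpen_compl (L : PeriodPair) : IsOpen (L.lattice : Set ℂ)ᶜ := L.isClosed_lattice.isOpen_compl

theorem countable_lattice (L : PeriodPair) : (L.lattice : Set ℂ).Countable := by
  have : Countable L.lattice := L.latticeEquivProd.toEquiv.countable_iff.2 inferInstance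
  exact Set.countable_coe_iff.1 this

theorem preconn {s : Set ℂ} (hs : s.Countable) : IsPreconnected sᶜ :=
  (hs.isConnected_compl_of_one_lt_rank (by simp)).isPreconnected

theorem analyticAt_wzeta {z : ℂ} (hz : z ∉ L.lattice) : AnalyticAt ℂ (wzeta L) z :=
  DifferentiableOn.analyticOnNhd
    (fun _ hz => (hasDerivAt_wzeta hz).differentiableAt.differentiableWithinAt)
    (isOpen_compl L) z hz

theorem analyticAt_wp {z : ℂ} (hz : z ∉ L.lattice) : AnalyticAt ℂ L.weierstrassP z :=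
  L.analyticOnNhd_weierstrassP z hz

theorem analyticAt_wp' {z : ℂ} (hz : z ∉ L.lattice) : AnalyticAt ℂ L.derivWeierstrassP z :=
  L.analyticOnNhd_derivWeierstrassP z hz

theorem hasDerivAt_wp {z : ℂ} (hz : z ∉ L.lattice) :
    HasDerivAt L.weierstrassP (L.derivWeierstrassP z) z := by
  rw [← L.deriv_weierstrassP]
  exact (analyticAt_wp hz).differentiableAt.hasDerivAt

theorem wzeta_neg (L : PeriodPair) (z : ℂ) : wzeta L (-z) = - wzeta L z := by
  unfold wzeta
  rw [← (Equiv.neg L.lattice).tsum_eq, ← tsum_neg]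
  congr 1
  funext l
  simp only [Equiv.neg_apply, NegMemClass.coe_neg, sub_neg_eq_add]
  rw [show -z + (l : ℂ) = -(z - l) by ring, div_neg, div_neg, neg_sq, neg_div]
  ring

theorem add_notMem {z l : ℂ} (hz : z ∉ L.lattice) (hl : l ∈ L.lattice) : z + l ∉ L.lattice :=
  fun h => hz (by simpa using L.lattice.sub_mem h hl)

theorem neg_notMem {z : ℂ} (hz : z ∉ L.lattice) : -z ∉ L.lattice :=
  fun h => hz (by simpa using L.lattice.neg_mem h)

theorem wp_add {z l : ℂ} (hl : l ∈ L.lattice) : L.weierstrassP (z + l) = L.weierstrassP z :=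
  L.weierstrassP_add_coe z ⟨l, hl⟩

theorem wp'_add {z l : ℂ} (hl : l ∈ L.lattice) :
    L.derivWeierstrassP (z + l) = L.derivWeierstrassP z :=
  L.derivWeierstrassP_add_coe z ⟨l, hl⟩

/-- quasi-period -/
noncomputable def eta (L : PeriodPair) (l : ℂ) : ℂ :=
  wzeta L (L.ω₁ / 2 + l) - wzeta L (L.ω₁ / 2)

theorem wzeta_add {z l : ℂ} (hz : z ∉ L.lattice) (hl : l ∈ L.lattice) :
    wzeta L (z + l) = wzeta L z + eta L l := by
  have hd : ∀ x ∈ (L.lattice : Set ℂ)ᶜ,
      HasDerivAt (fun x => wzeta L (x + l) - wzeta L x) 0 x := by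
    intro x hx
    have h1 := (hasDerivAt_wzeta (add_notMem hx hl)).comp_add_const x l
    have h2 := h1.sub (hasDerivAt_wzeta hx)
    rw [wp_add hl, sub_self] at h2
    exact h2
  have := (isOpen_compl L).is_const_of_deriv_eq_zero (preconn (countable_lattice L))
    (fun x hx => (hd x hx).differentiableAt.differentiableWithinAt)
    (fun x hx => (hd x hx).deriv) hz L.ω₁_div_two_notMem_lattice
  unfold eta
  linear_combination this

theorem ev_notMem (L : PeriodPair) (t : ℂ) : ∀ᶠ z in 𝓝[≠] t, z ∉ L.lattice := by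
  filter_upwards [self_mem_nhdsWithin,
    mem_nhdsWithin_of_mem_nhds (L.compl_lattice_sdiff_singleton_mem_nhds t)] with z h1 h2
  exact fun h => h2 ⟨h, h1⟩

theorem ev_add_notMem (L : PeriodPair) (t v : ℂ) : ∀ᶠ z in 𝓝[≠] t, z + v ∉ L.lattice := by
  have h : Tendsto (fun z : ℂ => z + v) (𝓝[≠] t) (𝓝[≠] (t + v)) := by
    refine tendsto_nhdsWithin_of_tendsto_nhds_of_eventually_within _
      ((continuous_add_const v).continuousAt.tendsto.mono_left nhdsWithin_le_nhds) ?_
    filter_upwards [self_mem_nhdsWithin] with z hz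
    simpa using hz
  exact h.eventually (ev_notMem L (t + v))

theorem exists_factor {f : ℂ → ℂ} (hf : AnalyticAt ℂ f 0) :
    ∃ q : ℂ → ℂ, AnalyticAt ℂ q 0 ∧ q 0 = deriv f 0 ∧ ∀ z, f z = f 0 + z * q z := by
  refine ⟨dslope f 0, ?_, dslope_same f 0, fun z => ?_⟩
  · obtain ⟨p, hp⟩ := hf
    exact ⟨_, hp.has_fpower_series_dslope_fslope⟩
  · have := sub_smul_dslope f 0 z
    simp only [sub_zero, smul_eq_mul] at this
    rw [this]; ring

theorem wzE_factor (L : PeriodPair) :
    ∃ h : ℂ → ℂ, AnalyticAt ℂ h 0 ∧ h 0 = 0 ∧ ∀ z, wzE L z = z * h z := by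
  obtain ⟨q, hq, h0, h⟩ := exists_factor (analyticOnNhd_wzE L 0 (by simp))
  refine ⟨q, hq, ?_, fun z => by rw [h, wzE_zero, zero_add]⟩
  rw [h0, (hasDerivAt_wzE L (z := 0) (by simp)).deriv]
  simp

/-- an elliptic function with removable singularities that tends to zero at the origin vanishes -/
theorem zero_of_removable {S : Set ℂ} {G : ℂ → ℂ} (hS : ∀ t, ∀ᶠ z in 𝓝[≠] t, z ∉ S)
    (hSc : IsClosed S) (hSp : ∀ l ∈ L.lattice, ∀ z, z + l ∈ S ↔ z ∈ S)
    (hp : ∀ l ∈ L.lattice, ∀ z, z ∉ S → G (z + l) = G z)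
    (ha : ∀ z, z ∉ S → AnalyticAt ℂ G z)
    (hr : ∀ t ∈ S, ∃ l ∈ L.lattice, Pole G (t + l) 0)
    (h0 : ∃ u : ℂ → ℂ, ContinuousAt u 0 ∧ u 0 = 0 ∧ ∀ᶠ z in 𝓝[≠] 0, G z = u z) :
    ∀ z, z ∉ S → G z = 0 := by
  classical
  set f : ℂ → ℂ := fun z => if z ∈ S then 0 else G z with hf
  have hfp : ∀ l ∈ L.lattice, ∀ z, f (z + l) = f z := by
    intro l hl z
    by_cases hz : z ∈ S
    · simp [hf, hz, (hSp l hl z).2 hz]
    · have : z + l ∉ S := fun h => hz ((hSp l hl z).1 h)
      simp [hf, hz, this, hp l hl z hz]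
  have hfG : ∀ t, ∀ᶠ z in 𝓝[≠] t, f z = G z := fun t => (hS t).mono fun z hz => by simp [hf, hz]
  have hPole : ∀ t, Pole G t 0 → Pole f t 0 := by
    rintro t ⟨u, hu, h⟩
    refine ⟨u, hu, ?_⟩
    filter_upwards [h, hfG t] with z h1 h2
    rw [h2, h1]
  have hall : ∀ t, Pole f t 0 := by
    intro t
    by_cases ht : t ∈ S
    · obtain ⟨l, hl, h⟩ := hr t ht
      have := (hPole _ h).shift (l := -l) (hfp _ (L.lattice.neg_mem hl))
      simpa using this
    · exact hPole t (pole_of_analytic (ha t ht))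
  obtain ⟨c, hc⟩ := const_of_pole L hall hfp
  have hGc : ∀ z, z ∉ S → G z = c := by
    intro z hz
    have he : f =ᶠ[𝓝 z] G := by
      filter_upwards [hSc.isOpen_compl.mem_nhds hz] with w hw
      simp [hf, show w ∉ S from hw]
    rw [← hc z ((ha z hz).continuousAt.congr he.symm)]
    simp [hf, hz]
  obtain ⟨u, hu, hu0, h⟩ := h0
  have h1 : Tendsto u (𝓝[≠] 0) (𝓝 c) := by
    refine tendsto_const_nhds.congr' ?_
    filter_upwards [h, hS 0] with z h1 h2
    rw [← h1, hGc z h2]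
  have h2 := tendsto_nhds_unique h1 (hu.tendsto.mono_left nhdsWithin_le_nhds)
  intro z hz
  rw [hGc z hz, h2, hu0]

/-- Frobenius-Stickelberger formula -/
theorem fs {z v : ℂ} (hz : z ∉ L.lattice) (hv : v ∉ L.lattice) (hzv : z + v ∉ L.lattice) :
    (wzeta L (z + v) - wzeta L z - wzeta L v) ^ 2
      = L.weierstrassP z + L.weierstrassP v + L.weierstrassP (z + v) := by
  set G : ℂ → ℂ := fun z => (wzeta L (z + v) - wzeta L z - wzeta L v) ^ 2
      - (L.weierstrassP z + L.weierstrassP v + L.weierstrassP (z + v)) with hG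
  have hshift : ∀ {g : ℂ → ℂ} {w : ℂ}, AnalyticAt ℂ g (w + v) →
      AnalyticAt ℂ (fun z => g (z + v)) w := fun {g w} h =>
    h.comp (f := fun z => z + v) (by fun_prop)
  obtain ⟨h, hh, hh0, hhe⟩ := wzE_factor L
  obtain ⟨q, hq, hq0, hqe⟩ := exists_factor (f := fun z => wzeta L (z + v))
    (hshift (by simpa using analyticAt_wzeta hv))
  have hq0' : q 0 = - L.weierstrassP v := by
    rw [hq0]
    have := (hasDerivAt_wzeta (z := 0 + v) (by simpa using hv)).comp_add_const 0 v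
    rw [this.deriv, zero_add]
  have hpE := L.analyticAt_weierstrassPExcept 0
  have hpv : AnalyticAt ℂ (fun z => L.weierstrassP (z + v)) 0 :=
    hshift (by simpa using analyticAt_wp hv)
  set u : ℂ → ℂ := fun z => -2 * (q z - h z) + (z * (q z - h z)) ^ 2
    - (L.weierstrassPExcept 0 z + L.weierstrassP v + L.weierstrassP (z + v)) with hu
  have hua : AnalyticAt ℂ u 0 := by
    simp only [hu]; fun_prop
  have hGu : ∀ᶠ z in 𝓝[≠] 0, G z = u z := by
    filter_upwards [self_mem_nhdsWithin] with z hz0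
    have hz0' : z ≠ 0 := hz0
    have e1 := hqe z
    simp only [zero_add] at e1
    simp only [hG, hu]
    rw [e1, wzeta_eq L z, hhe z, wp_eq L z]
    field_simp
    ring
  have hsym : ∀ z, G (-v - z) = G z := by
    intro z
    simp only [hG]
    rw [show -v - z + v = -z by ring, show -v - z = -(z + v) by ring, wzeta_neg, wzeta_neg,
      L.weierstrassP_neg, L.weierstrassP_neg]
    ring
  have hP0 : Pole G 0 0 := ⟨u, hua, hGu.mono fun z h => by simpa using h⟩
  have hPv : Pole G (-v) 0 := by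
    refine ⟨fun z => u (-v - z), ?_, ?_⟩
    · have : AnalyticAt ℂ u (-v - -v) := by simpa using hua
      exact this.comp (f := fun z => -v - z) (by fun_prop)
    · have ht : Tendsto (fun z : ℂ => -v - z) (𝓝[≠] (-v)) (𝓝[≠] 0) := by
        refine tendsto_nhdsWithin_of_tendsto_nhds_of_eventually_within _ ?_ ?_
        · have : ContinuousAt (fun z : ℂ => -v - z) (-v) := by fun_prop
          simpa using this.tendsto.mono_left nhdsWithin_le_nhds
        · filter_upwards [self_mem_nhdsWithin] with z hz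
          exact fun e => hz (by have : -v - z = 0 := e; simp; linear_combination -this)
      filter_upwards [ht.eventually hGu] with z hz
      rw [← hz, hsym]; simp
  have key := zero_of_removable (L := L) (S := {z | z ∈ L.lattice ∨ z + v ∈ L.lattice}) (G := G)
    (fun t => by
      filter_upwards [ev_notMem L t, ev_add_notMem L t v] with z h1 h2
      exact fun h => h.elim h1 h2)
    (L.isClosed_lattice.union (L.isClosed_lattice.preimage (continuous_add_const v)))
    (fun l hl z => by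
      simp only [mem_ofPred_eq]
      rw [add_right_comm, L.lattice.add_mem_iff_left hl, L.lattice.add_mem_iff_left hl])
    (fun l hl z hz => by
      simp only [mem_ofPred_eq, not_or] at hz
      simp only [hG]
      rw [add_right_comm, wzeta_add hz.1 hl, wzeta_add hz.2 hl, wp_add hl, wp_add hl]
      ring)
    (fun z hz => by
      simp only [mem_ofPred_eq, not_or] at hz
      have h1 := hshift (analyticAt_wzeta hz.2)
      have h2 := hshift (analyticAt_wp hz.2)
      have h3 := analyticAt_wzeta hz.1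
      have h4 := analyticAt_wp hz.1
      simp only [hG]; fun_prop)
    (fun t ht => by
      rcases ht with h | h
      · exact ⟨-t, L.lattice.neg_mem h, by simpa using hP0⟩
      · refine ⟨-(t + v), L.lattice.neg_mem h, ?_⟩
        rw [show t + -(t + v) = -v by ring]; exact hPv)
    ⟨u, hua.continuousAt, by simp [hu, hq0', hh0]; ring, hGu⟩ z (fun h => h.elim hz hzv)
  exact sub_eq_zero.1 key

end Pool.Agent.Lib.MP_0c15f2_nt
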